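import Pool.Agent.H97F.Unique

/-!
# The charts
-/

set_option autoImplicit false

namespace Pool.Agent.H97F

open MvPolynomial

section Nat

variable {K : Type} [Field K] {N : ℕ} (S : Sys K N)

theorem act_map {R R' : Type} [CommRing R] [Algebra K R] [CommRing R'] [Algebra K R']
    (φ : R →ₐ[K] R') (τ : Bool) (t : R) (f : Fin N → R) :
    (fun j => φ (S.act τ t f j)) = S.act τ (φ t) (fun j => φ (f j)) := by
  funext j
  unfold Sys.act actR
  have h : φ.comp (aeval fun o : Option (Fin N) => o.elim t f) =
      (aeval fun o : Option (Fin N) => o.elim (φ t) fun j => φ (f j)) := by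
    refine MvPolynomial.algHom_ext fun o => ?_
    cases o <;> simp
  rw [← h]
  rfl

theorem wrd_map {R R' : Type} [CommRing R] [Algebra K R] [CommRing R'] [Algebra K R']
    (φ : R →ₐ[K] R') (τ : Bool) (w : List R) (f : Fin N → R) :
    (fun j => φ (wrd S.act τ w f j)) = wrd S.act τ (w.map φ) (fun j => φ (f j)) := by
  induction w generalizing τ f with
  | nil => rfl
  | cons a w ih =>
    show (fun j => φ (wrd S.act (!τ) w (S.act τ a f) j)) = wrd S.act (!τ) (w.map φ) _
    rw [ih, act_map]

theorem isAct {R : Type} [CommRing R] [Algebra K R] :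
    IsAct (fun (τ : Bool) (t : R) (f : Fin N → R) => S.act τ t f) where
  zero τ f := S.zero R τ f
  add τ s t f := S.add R τ s t f
  free τ t f h := by
    have h1 := S.same R τ t f
    have h2 : actR S.fl τ t f (S.co τ) = f (S.co τ) := congrFun h _
    rw [h2] at h1
    simpa using h1

/-- the variables: the first flag and the letters -/
abbrev Va (N : ℕ) : Type := Fin N ⊕ Fin N

/-- the chart -/
noncomputable def ch (τ : Bool) : Va N → MvPolynomial (Va N) K :=
  Sum.elim (fun j => X (Sum.inl j))
    (wrd (fun (τ : Bool) (t : MvPolynomial (Va N) K) f => S.act τ t f) τ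
      (List.ofFn fun i => X (Sum.inr i)) (fun j => X (Sum.inl j)))

/-- the word of letters of a point -/
def lets {R : Type} (a : Va N → R) : List R := List.ofFn fun i => a (Sum.inr i)

theorem length_lets {R : Type} (a : Va N → R) : (lets a).length = N := by simp [lets]

/-- the chart at a point with values in an algebra -/
theorem aeval_ch {R : Type} [CommRing R] [Algebra K R] (τ : Bool) (a : Va N → R) :
    (fun i => aeval a (ch S τ i)) = Sum.elim (fun j => a (Sum.inl j))
      (wrd (fun (τ : Bool) (t : R) f => S.act τ t f) τ (lets a) (fun j => a (Sum.inl j))) := by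
  funext i
  rcases i with i | i
  · simp [ch]
  · have h := congrFun (wrd_map S (aeval a : MvPolynomial (Va N) K →ₐ[K] R) τ
      (List.ofFn fun i => X (Sum.inr i)) (fun j => X (Sum.inl j))) i
    simp only [Sum.elim_inr, ch]
    refine h.trans ?_
    have e1 : List.map (aeval a : MvPolynomial (Va N) K →ₐ[K] R)
        (List.ofFn fun i => (X (Sum.inr i) : MvPolynomial (Va N) K)) = lets a := by
      rw [List.map_ofFn]
      congr 1
      funext i
      simp
    rw [e1]
    simp

theorem eval_ch (τ : Bool) (a : Va N → K) :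
    (fun i => eval a (ch S τ i)) = Sum.elim (fun j => a (Sum.inl j))
      (wrd (fun (τ : Bool) (t : K) f => S.act τ t f) τ (lets a) (fun j => a (Sum.inl j))) := by
  have h := aeval_ch S τ a
  rw [← h]
  funext i
  rw [MvPolynomial.aeval_eq_eval]

/-- the point with first flag `f` and letters `w` -/
def pt {R : Type} [Zero R] (f : Fin N → R) (w : List R) : Va N → R :=
  Sum.elim f fun i => w.getD i 0

theorem lets_pt {R : Type} [Zero R] (f : Fin N → R) {w : List R} (h : w.length = N) :
    lets (pt f w) = w := by
  apply List.ext_getElem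
  · simp [lets, h]
  · intro i h1 h2
    simp [lets, pt, h2]

theorem pt_lets {R : Type} [Zero R] (a : Va N → R) : pt (fun j => a (Sum.inl j)) (lets a) = a := by
  funext i
  rcases i with i | i
  · simp [pt]
  · simp [pt, lets]

/-- the chart at a point of a list -/
theorem eval_ch_pt (τ : Bool) (f : Fin N → K) {w : List K} (h : w.length = N) :
    (fun i => eval (pt f w) (ch S τ i)) =
      Sum.elim f (wrd (fun (τ : Bool) (t : K) f => S.act τ t f) τ w f) := by
  rw [eval_ch, lets_pt f h]
  rfl

/-- evaluation of the composite -/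
theorem eval_bind_pt (τ : Bool) (f : Fin N → K) {w : List K} (h : w.length = N)
    (q : MvPolynomial (Va N) K) : eval (pt f w) (bind₁ (ch S τ) q) =
      eval (Sum.elim f (wrd (fun (τ : Bool) (t : K) f => S.act τ t f) τ w f)) q := by
  rw [← eval_ch_pt S τ f h, ← MvPolynomial.aeval_eq_eval, MvPolynomial.aeval_eq_eval]
  rw [MvPolynomial.eval, MvPolynomial.eval₂Hom_bind₁]
  rfl

/-- the product of the letters in the middle -/
noncomputable def midP (K : Type) [Field K] (N : ℕ) : MvPolynomial (Va N) K :=
  ∏ i : Fin N, if 0 < (i : ℕ) ∧ (i : ℕ) + 1 < N then X (Sum.inr i) else 1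

theorem eval_midP_ne (a : Va N → K) : eval a (midP K N) ≠ 0 ↔
    ∀ i : Fin N, 0 < (i : ℕ) → (i : ℕ) + 1 < N → a (Sum.inr i) ≠ 0 := by
  unfold midP
  rw [map_prod, Finset.prod_ne_zero_iff]
  constructor
  · intro h i h1 h2
    have := h i (Finset.mem_univ _)
    rwa [if_pos ⟨h1, h2⟩, eval_X] at this
  · intro h i _
    split_ifs with h1
    · rw [eval_X]
      exact h i h1.1 h1.2
    · simp

theorem eval_midP_pt (f : Fin N → K) (x y : K) {m : List K} (hm : m.length + 2 = N) :
    eval (pt f (x :: (m ++ [y]))) (midP K N) ≠ 0 ↔ NZ m := by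
  rw [eval_midP_ne]
  constructor
  · intro h z hz
    obtain ⟨i, hi, rfl⟩ := List.getElem_of_mem hz
    have := h ⟨i + 1, by omega⟩ (by simp) (by simp; omega)
    simpa [pt, List.getD_cons_succ, List.getD_eq_getElem?_getD, List.getElem?_append_left hi, hi]
      using this
  · intro h i h1 h2
    obtain ⟨j, hj⟩ : ∃ j, (i : ℕ) = j + 1 := ⟨i - 1, by omega⟩
    have hj' : j < m.length := by omega
    have e : pt f (x :: (m ++ [y])) (Sum.inr i) = m[j] := by
      simp [pt, hj, List.getD_eq_getElem?_getD, List.getElem?_append_left hj', hj']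
    rw [e]
    exact h _ (List.getElem_mem _)

theorem exists_split {R : Type} {w : List R} (h : 2 ≤ w.length) :
    ∃ x m y, w = x :: (m ++ [y]) ∧ m.length + 2 = w.length := by
  rcases w with _ | ⟨x, w⟩
  · simp at h
  rcases List.eq_nil_or_concat w with rfl | ⟨m, y, rfl⟩
  · simp at h
  · exact ⟨x, m, y, by simp, by simp⟩

end Nat

section Inj

variable {G F : Type} [AddCommGroup G] {ac : Bool → G → F → F}

/-- the charts are injective -/
theorem chart_inj (h : IsAct ac) {N : ℕ} (hN : 2 ≤ N) (hc : NoClosed ac (2 * (N - 1))) (τ : Bool)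
    (f : F) {x x' y y' : G} {m m' : List G} (hm : m.length + 2 = N) (hm' : m'.length + 2 = N)
    (hz : NZ m) (hz' : NZ m')
    (he : wrd ac τ (x :: (m ++ [y])) f = wrd ac τ (x' :: (m' ++ [y'])) f) :
    x = x' ∧ m = m' ∧ y = y' := by
  have hev : Even (2 * (N - 1)) := even_two_mul _
  have hl : m.length = m'.length := by omega
  -- remove the last letter
  have e1 : ∀ (z w : G) (u : List G) (g : F), wrd ac τ (z :: (u ++ [w])) g =
      ac (ty (!τ) u.length) w (wrd ac (!τ) u (ac τ z g)) := by
    intro z w u g
    show wrd ac (!τ) (u ++ [w]) (ac τ z g) = _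
    rw [wrd_append]
    rfl
  rw [e1, e1, ← hl] at he
  have h2 : ac (ty (!τ) m.length) (y - y') (wrd ac (!τ) m (ac τ x f)) =
      wrd ac (!τ) m' (ac τ x' f) := by
    rw [sub_eq_add_neg, h.add, he, h.neg_cancel]
  obtain ⟨g, hg⟩ : ∃ g, g = ac τ x' f := ⟨_, rfl⟩
  have hg2 : ac τ x f = ac τ (x - x') g := by
    rw [hg, ← h.add]
    congr 1
    abel
  rw [hg2, ← hg] at h2
  -- the word on the left
  have h3 : wrd ac τ ((x - x') :: (m ++ [y - y'])) g = wrd ac (!τ) m' g := by
    rw [e1]
    exact h2
  by_cases hx : x - x' = 0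
  · rw [hx] at h3
    have h4 : wrd ac (!τ) (m ++ [y - y']) g = wrd ac (!τ) m' g := by
      have : wrd ac τ (0 :: (m ++ [y - y'])) g = wrd ac (!τ) (m ++ [y - y']) (ac τ 0 g) := rfl
      rw [this, h.zero] at h3
      exact h3
    by_cases hy : y - y' = 0
    · rw [hy, wrd_append] at h4
      have : wrd ac (ty (!τ) m.length) [0] (wrd ac (!τ) m g) = wrd ac (!τ) m g := h.zero _ _
      rw [this] at h4
      obtain ⟨h5, -⟩ := unique G F ac h _ hev hc (!τ) (!τ) m m' g hz hz' (by omega) h4
      exact ⟨sub_eq_zero.1 hx, h5, sub_eq_zero.1 hy⟩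
    · exfalso
      obtain ⟨h5, -⟩ := unique G F ac h _ hev hc (!τ) (!τ) (m ++ [y - y']) m' g
        (nz_append.2 ⟨hz, nz_singleton.2 hy⟩) hz'
        (by simp only [List.length_append, List.length_singleton]; omega) h4
      have := congrArg List.length h5
      simp only [List.length_append, List.length_singleton] at this
      omega
  · exfalso
    by_cases hy : y - y' = 0
    · have h4 : wrd ac τ ((x - x') :: m) g = wrd ac (!τ) m' g := by
        rw [hy, e1, h.zero] at h3
        exact h3
      obtain ⟨h5, -⟩ := unique G F ac h _ hev hc τ (!τ) ((x - x') :: m) m' g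
        (nz_cons.2 ⟨hx, hz⟩) hz' (by simp only [List.length_cons]; omega) h4
      have := congrArg List.length h5
      simp only [List.length_cons] at this
      omega
    · obtain ⟨h5, -⟩ := unique G F ac h _ hev hc τ (!τ) ((x - x') :: (m ++ [y - y'])) m' g
        (nz_cons.2 ⟨hx, nz_append.2 ⟨hz, nz_singleton.2 hy⟩⟩) hz'
        (by simp only [List.length_cons, List.length_append, List.length_nil]; omega) h3
      have := congrArg List.length h5
      simp only [List.length_cons, List.length_append, List.length_nil] at this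
      omega

end Inj

end Pool.Agent.H97F
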