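import Pool.Agent.H97F.Graph

/-!
# The number of edges of an algebraically defined graph over a finite field
-/

set_option autoImplicit false

namespace Pool.Agent.H97F

namespace GraphPf

variable {K : Type} [Field K] {k : ℕ}

/-- the edge of a flag -/
noncomputable def edge (A : ADG k K) (f : Fin (k + 1) → K) :
    Sym2 ((Fin k → K) ⊕ (Fin k → K)) :=
  s(Sum.inl (pt f), Sum.inr (ln A f))

theorem edge_inj (A : ADG k K) (hk : 0 < k) : Function.Injective (edge A) := by
  intro f g h
  unfold edge at h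
  rw [Sym2.eq_iff] at h
  rcases h with ⟨h1, h2⟩ | ⟨h1, _⟩
  · have hp : pt f = pt g := Sum.inl.inj h1
    have hl : ln A f = ln A g := Sum.inr.inj h2
    have h3 := ln_zero A f ⟨0, hk⟩ rfl
    have h4 := ln_zero A g ⟨0, hk⟩ rfl
    funext j
    refine Fin.cases ?_ (fun i => ?_) j
    · rw [← h3, ← h4, hl]
    · exact congrFun hp i
  · exact absurd h1 (by simp)

theorem edge_range (A : ADG k K) (hk : 0 < k) : A.graph.edgeSet = Set.range (edge A) := by
  ext e
  induction e with
  | _ x y =>
    rw [SimpleGraph.mem_edgeSet]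
    have key : ∀ p l : Fin k → K, A.Inc p l → ∃ f, pt f = p ∧ ln A f = l := by
      intro p l h
      refine ⟨Fin.cons (l ⟨0, hk⟩) p, ?_, ?_⟩
      · funext j
        simp [pt]
      · have h1 : Rel A true l (pt (Fin.cons (l ⟨0, hk⟩) p : Fin (k + 1) → K)) := by
          have h2 : pt (Fin.cons (l ⟨0, hk⟩) p : Fin (k + 1) → K) = p := by
            funext j
            simp [pt]
          rw [h2]
          exact (inc_iff A p l).1 h
        have h3 := sol_unique A h1 (x0 := l ⟨0, hk⟩) (fun i hi => by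
          have : i = ⟨0, hk⟩ := Fin.ext hi
          rw [this])
        unfold ln
        rw [Fin.cons_zero]
        exact h3.symm
    constructor
    · intro h
      rcases x with p | l <;> rcases y with p' | l'
      · exact absurd h (by simp [ADG.graph])
      · obtain ⟨f, hf1, hf2⟩ := key p l' h
        exact ⟨f, by unfold edge; rw [hf1, hf2]⟩
      · obtain ⟨f, hf1, hf2⟩ := key p' l h
        exact ⟨f, by unfold edge; rw [hf1, hf2, Sym2.eq_swap]⟩
      · exact absurd h (by simp [ADG.graph])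
    · rintro ⟨f, hf⟩
      have h : A.Inc (pt f) (ln A f) := (inc_iff A _ _).2 (rel_flag A f)
      unfold edge at hf
      rw [Sym2.eq_iff] at hf
      rcases hf with ⟨h1, h2⟩ | ⟨h1, h2⟩
      · rw [← h1, ← h2]
        exact h
      · rw [← h1, ← h2]
        exact h

end GraphPf

/-- The numbers of the vertices and edges. -/
theorem card_edges {K : Type} [Field K] [Finite K] {k : ℕ} (hk : 1 ≤ k) (A : ADG k K) :
    Nat.card ((Fin k → K) ⊕ (Fin k → K)) = 2 * Nat.card K ^ k ∧
    A.graph.edgeSet.ncard = Nat.card K ^ (k + 1) ∧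
    (A.graph.edgeSet.ncard : ℝ) = ((2 : ℝ) ^ (1 + 1 / (k : ℝ)))⁻¹ *
      (Nat.card ((Fin k → K) ⊕ (Fin k → K)) : ℝ) ^ (1 + 1 / (k : ℝ)) := by
  have h1 : Nat.card ((Fin k → K) ⊕ (Fin k → K)) = 2 * Nat.card K ^ k := by
    rw [Nat.card_sum, Nat.card_fun, Nat.card_fin]
    ring
  have h2 : A.graph.edgeSet.ncard = Nat.card K ^ (k + 1) := by
    rw [GraphPf.edge_range A hk, ← Set.image_univ, Set.ncard_image_of_injective _
      (GraphPf.edge_inj A hk), Set.ncard_univ, Nat.card_fun, Nat.card_fin]
  refine ⟨h1, h2, ?_⟩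
  rw [h1, h2]
  have hq : (0 : ℝ) ≤ (Nat.card K : ℝ) := Nat.cast_nonneg _
  have hk0 : (k : ℝ) ≠ 0 := by
    have : 0 < k := hk
    exact_mod_cast this.ne'
  push_cast
  rw [Real.mul_rpow (by norm_num) (by positivity), ← mul_assoc,
    inv_mul_cancel₀ (by positivity), one_mul, ← Real.rpow_natCast (Nat.card K : ℝ) k,
    ← Real.rpow_mul hq, ← Real.rpow_natCast]
  congr 1
  push_cast
  field_simp

end Pool.Agent.H97F
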