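import Mathlib

/-!
# Two polynomial flows on an affine space: definitions

Words in two one-parameter groups `ac true t`, `ac false t`; polynomial flows; algebraically defined
graphs; and the statements of the lemmas (as `Prop`s) from which the main theorem is assembled.
-/

set_option autoImplicit false

namespace Pool.Agent.H97F

open MvPolynomial

/-! ### Words -/

section Words

variable {G F : Type}

/-- The alternating word with letters `w`, first letter of type `τ`, acting from the right. -/
def wrd (ac : Bool → G → F → F) : Bool → List G → F → F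
  | _, [], f => f
  | τ, a :: l, f => wrd ac (!τ) l (ac τ a f)

/-- The type of the letter number `n` (starting with `0`) of a word whose first letter has type
`τ`. -/
def ty (τ : Bool) (n : ℕ) : Bool := xor τ n.bodd

/-- all letters are nonzero -/
def NZ {G : Type} [Zero G] (w : List G) : Prop := ∀ x ∈ w, x ≠ 0

/-- There are no closed reduced words of even length at most `n`. -/
def NoClosed [Zero G] (ac : Bool → G → F → F) (n : ℕ) : Prop :=
  ∀ (τ : Bool) (w : List G) (f : F), w ≠ [] → Even w.length → w.length ≤ n → NZ w →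
    wrd ac τ w f ≠ f

/-- Two free actions of the group `G`. -/
structure IsAct [AddCommGroup G] (ac : Bool → G → F → F) : Prop where
  zero : ∀ τ f, ac τ 0 f = f
  add : ∀ τ s t f, ac τ (s + t) f = ac τ t (ac τ s f)
  free : ∀ τ t f, ac τ t f = f → t = 0

/-- (L1) Uniqueness of short reduced words. -/
def LUnique : Prop :=
  ∀ (G F : Type) [AddCommGroup G] (ac : Bool → G → F → F), IsAct ac → ∀ n : ℕ, Even n →
    NoClosed ac n →
    ∀ (τ σ : Bool) (u v : List G) (f : F), NZ u → NZ v → u.length + v.length ≤ n + 1 →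
      wrd ac τ u f = wrd ac σ v f → u = v ∧ (u = [] ∨ τ = σ)

/-- (L6) The descent. -/
def LDescent : Prop :=
  ∀ (K F : Type) [Field K] [Infinite K] (ac : Bool → K → F → F), IsAct ac → ∀ N n m : ℕ,
    n + m + 3 = N → NoClosed ac (2 * (N - 1)) →
    ∀ (π : Bool → F → K), (∀ ρ τ t f, π ρ (ac τ t f) = π ρ f + if ρ = τ then t else 0) →
    ∀ (E : K → F → F), (∀ ρ z f, π ρ (E z f) = π ρ f) → ∀ τ : Bool,
    (∀ (f : F) (pre suf : List K) (r : K), pre.length = n → suf.length = m → NZ pre → r ≠ 0 →
      NZ suf → ∀ᶠ z in Filter.cofinite, ∃ C : List K, C.length = n + 1 + m ∧ NZ C ∧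
        wrd ac (ty τ n) (r :: suf) (E z (wrd ac τ pre f)) = wrd ac τ C f) →
    ∀ f, ∀ᶠ z in Filter.cofinite, E z f = f

end Words

/-! ### Regularity of the inverse -/

/-- (L2) If a polynomial map from affine space to itself is injective outside the hypersurface `h = 0`
then it is dominant, and it has a regular inverse locally around each point of its image. -/
def LRegular : Prop :=
  ∀ (K : Type) [Field K] [IsAlgClosed K] [CharZero K] (ι : Type) [Fintype ι]
    (A : ι → MvPolynomial ι K) (h : MvPolynomial ι K),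
    (∀ a b : ι → K, eval a h ≠ 0 → eval b h ≠ 0 → (∀ i, eval a (A i) = eval b (A i)) → a = b) →
    ∀ a₀ : ι → K, eval a₀ h ≠ 0 →
      Function.Injective (bind₁ A : MvPolynomial ι K → MvPolynomial ι K) ∧
      ∃ r : MvPolynomial ι K, eval (fun i => eval a₀ (A i)) r ≠ 0 ∧
        (∀ u : MvPolynomial ι K, ∃ (g : MvPolynomial ι K) (k : ℕ),
          u * (bind₁ A r) ^ k = bind₁ A g) ∧
        (∀ y : ι → K, eval y r ≠ 0 → ∃ a, eval a h ≠ 0 ∧ ∀ i, eval a (A i) = y i)

/-! ### The slope -/

/-- (L4) The largest slope of a family of polynomials in `(f; b, a)`, where `b` is the variable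
`inr true` and `a` is the variable `inr false`; in the result `z = inr true`, `v = inr false`. -/
def LSlope : Prop :=
  ∀ (K : Type) [Field K] [Infinite K] (N : ℕ) (Φ : Fin N → MvPolynomial (Fin N ⊕ Bool) K),
    (∀ (f : Fin N → K) (b : K) (j : Fin N),
      eval (Sum.elim f fun β => if β then b else 0) (Φ j) = f j) →
    (∃ (f : Fin N → K) (b a : K) (j : Fin N),
      eval (Sum.elim f fun β => if β then b else a) (Φ j) ≠
        eval (Sum.elim f fun β => if β then 0 else a) (Φ j)) →
    ∃ (P Q : ℕ) (Ψ : Fin N → MvPolynomial (Fin N ⊕ Bool) K), 0 < P ∧ 0 < Q ∧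
      (∀ (f : Fin N → K) (z v : K) (j : Fin N), v ≠ 0 →
        eval (Sum.elim f fun β => if β then z else v) (Ψ j) =
          eval (Sum.elim f fun β => if β then (v ^ Q)⁻¹ else z * v ^ P) (Φ j)) ∧
      ∃ (f : Fin N → K) (z : K) (j : Fin N),
        eval (Sum.elim f fun β => if β then z else 0) (Ψ j) ≠ f j

/-! ### The numbers -/

/-- (L7) The end of the proof. The entries of `y` are numbered from `0`. -/
def LNumbers : Prop :=
  ∀ (N : ℕ) (P Q : Bool → ℕ), 3 ≤ N → (∀ σ, 0 < P σ) → (∀ σ, 0 < Q σ) →
    (∀ τ : Bool, ∃ y : ℕ → ℕ, y 0 = 0 ∧ y 1 = 1 ∧ y (N - 1) = 1 ∧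
      (∀ i, 1 ≤ i → i ≤ N - 1 → 0 < y i) ∧
      ∀ i, 1 ≤ i → i ≤ N - 2 →
        P (ty τ (i - 1)) * y i = Q (ty τ (i - 1)) * (y (i - 1) + y (i + 1))) →
    N = 3 ∨ N = 4 ∨ N = 6

/-! ### Polynomial flows -/

/-- The action given by the polynomials `fl`, over a `K`-algebra `R`. -/
noncomputable def actR {K : Type} [Field K] {N : ℕ}
    (fl : Bool → Fin N → MvPolynomial (Option (Fin N)) K) {R : Type} [CommRing R] [Algebra K R]
    (τ : Bool) (t : R) (f : Fin N → R) : Fin N → R :=
  fun j => aeval (fun o : Option (Fin N) => o.elim t f) (fl τ j)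

/-- Two polynomial actions of the additive group on the affine space of dimension `N`, with
coordinates `co τ` such that the action number `τ` translates the coordinate `co τ` and fixes the
coordinate `co (!τ)`. -/
structure Sys (K : Type) [Field K] (N : ℕ) where
  /-- the polynomials -/
  fl : Bool → Fin N → MvPolynomial (Option (Fin N)) K
  /-- the coordinates -/
  co : Bool → Fin N
  zero : ∀ (R : Type) [CommRing R] [Algebra K R] (τ : Bool) (f : Fin N → R), actR fl τ 0 f = f
  add : ∀ (R : Type) [CommRing R] [Algebra K R] (τ : Bool) (s t : R) (f : Fin N → R),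
    actR fl τ (s + t) f = actR fl τ t (actR fl τ s f)
  same : ∀ (R : Type) [CommRing R] [Algebra K R] (τ : Bool) (t : R) (f : Fin N → R),
    actR fl τ t f (co τ) = f (co τ) + t
  other : ∀ (R : Type) [CommRing R] [Algebra K R] (τ : Bool) (t : R) (f : Fin N → R),
    actR fl τ t f (co (!τ)) = f (co (!τ))

/-- The action over a `K`-algebra `R`. -/
noncomputable def Sys.act {K : Type} [Field K] {N : ℕ} (S : Sys K N) {R : Type} [CommRing R]
    [Algebra K R] (τ : Bool) (t : R) (f : Fin N → R) : Fin N → R :=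
  actR S.fl τ t f

/-- There are no closed reduced words of even length at most `2 (N - 1)`. -/
def Sys.Tree {K : Type} [Field K] {N : ℕ} (S : Sys K N) : Prop :=
  NoClosed (fun (τ : Bool) (t : K) (f : Fin N → K) => S.act τ t f) (2 * (N - 1))

/-- (main theorem for flows) -/
def LFlows : Prop :=
  ∀ (K : Type) [Field K] [IsAlgClosed K] [CharZero K] (N : ℕ) (S : Sys K N), 3 ≤ N → S.Tree →
    N = 3 ∨ N = 4 ∨ N = 6

/-! ### Algebraically defined graphs -/

/-- A system of polynomials `f i` in the variables `p j = (j, false)`, `l j = (j, true)`, `j < i`,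
for `i < k`. (The polynomial `f 0` is not used.) -/
structure ADG (k : ℕ) (K : Type) [CommRing K] where
  /-- the polynomials -/
  f : (i : Fin k) → MvPolynomial (Fin i × Bool) K

/-- The point `p` is on the line `l`. -/
def ADG.Inc {k : ℕ} {K : Type} [CommRing K] (A : ADG k K) (p l : Fin k → K) : Prop :=
  ∀ i : Fin k, 0 < (i : ℕ) → p i + l i =
    eval (fun v : Fin i × Bool => (if v.2 then l else p) (v.1.castLE i.isLt.le)) (A.f i)

/-- The graph of the points `inl p` and the lines `inr l`. -/
def ADG.graph {k : ℕ} {K : Type} [CommRing K] (A : ADG k K) :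
    SimpleGraph ((Fin k → K) ⊕ (Fin k → K)) where
  Adj x y := match x, y with
    | Sum.inl p, Sum.inr l => A.Inc p l
    | Sum.inr l, Sum.inl p => A.Inc p l
    | _, _ => False
  symm := ⟨by rintro (x | x) (y | y) h <;> exact h⟩
  loopless := ⟨by rintro (x | x) h <;> exact h⟩

/-- The polynomials over an extension. -/
noncomputable def ADG.map {k : ℕ} {K : Type} [CommRing K] (A : ADG k K) {L : Type} [CommRing L]
    (φ : K →+* L) : ADG k L where
  f i := MvPolynomial.map φ (A.f i)

/-- (L8) An algebraically defined graph over an infinite field without short cycles gives a system of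
flows without short closed words. -/
def LGraph : Prop :=
  ∀ (K : Type) [Field K] (k : ℕ), 1 ≤ k → ∀ A : ADG k K,
    (∀ j : ℕ, 2 ≤ j → j ≤ k → ¬ (SimpleGraph.cycleGraph (2 * j)).IsContained A.graph) →
    ∃ S : Sys K (k + 1), S.Tree

/-- (main theorem over algebraically closed fields) -/
def LClosed : Prop :=
  ∀ (K : Type) [Field K] [IsAlgClosed K] [CharZero K] (k : ℕ), 2 ≤ k → k ≠ 2 → k ≠ 3 → k ≠ 5 →
    ∀ A : ADG k K, ∃ j : ℕ, 2 ≤ j ∧ j ≤ k ∧
      (SimpleGraph.cycleGraph (2 * j)).IsContained A.graph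

/-- (L9) The conclusion for finite fields. -/
def LFinite : Prop :=
  LClosed → ∀ k : ℕ, 2 ≤ k → k ≠ 2 → k ≠ 3 → k ≠ 5 → ∀ D : ℕ, ∃ M : ℕ,
    ∀ (K : Type) [Field K] [Finite K], M ≤ ringChar K → ∀ A : ADG k K,
      (∀ i, (A.f i).totalDegree ≤ D) →
      ∃ (L : Type) (_ : Field L) (_ : Finite L) (_ : Algebra K L), Module.finrank K L ≤ M ∧
        ∃ j : ℕ, 2 ≤ j ∧ j ≤ k ∧
          (SimpleGraph.cycleGraph (2 * j)).IsContained (A.map (algebraMap K L)).graph

end Pool.Agent.H97F
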