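import Pool.Agent.H97F.Defs

/-!
# The descent (job L6)
-/

set_option autoImplicit false
set_option linter.unusedSectionVars false

namespace Pool.Agent.H97F

namespace Des

theorem ty_zero (τ : Bool) : ty τ 0 = τ := by simp [ty]

theorem ty_succ (τ : Bool) (n : ℕ) : ty τ (n + 1) = !(ty τ n) := by
  simp only [ty, Nat.bodd_succ]
  cases τ <;> cases n.bodd <;> rfl

theorem ty_not (τ : Bool) (n : ℕ) : ty (!τ) n = !(ty τ n) := by
  simp only [ty]
  cases τ <;> cases n.bodd <;> rfl

theorem ty_add (τ : Bool) (m n : ℕ) : ty τ (m + n) = ty (ty τ m) n := by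
  induction n with
  | zero => rw [Nat.add_zero, ty_zero]
  | succ n ih => rw [← Nat.add_assoc, ty_succ, ih, ty_succ]

section

variable {G F : Type} [AddCommGroup G] {ac : Bool → G → F → F}

theorem wrd_append (τ : Bool) (a b : List G) (f : F) :
    wrd ac τ (a ++ b) f = wrd ac (ty τ a.length) b (wrd ac τ a f) := by
  induction a generalizing τ f with
  | nil => rw [List.nil_append, List.length_nil, ty_zero]; rfl
  | cons x l ih =>
    rw [List.cons_append, List.length_cons]
    change wrd ac (!τ) (l ++ b) (ac τ x f) = wrd ac (ty τ (l.length + 1)) b (wrd ac (!τ) l (ac τ x f))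
    rw [ih, ty_succ, ty_not]

theorem wrd_snoc (τ : Bool) (a : List G) (x : G) (f : F) :
    wrd ac τ (a ++ [x]) f = ac (ty τ a.length) x (wrd ac τ a f) := by
  rw [wrd_append]
  rfl

theorem act_inv (h : IsAct ac) {τ : Bool} {t : G} {f g : F} (e : ac τ t f = g) :
    f = ac τ (-t) g := by
  rw [← e, ← h.add, add_neg_cancel, h.zero]

theorem nz_append {a b : List G} : NZ (a ++ b) ↔ NZ a ∧ NZ b := by
  unfold NZ
  constructor
  · intro h
    exact ⟨fun x hx => h x (List.mem_append_left _ hx), fun x hx => h x (List.mem_append_right _ hx)⟩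
  · rintro ⟨h1, h2⟩ x hx
    rcases List.mem_append.mp hx with h | h
    · exact h1 x h
    · exact h2 x h

theorem nz_cons {x : G} {b : List G} : NZ (x :: b) ↔ x ≠ 0 ∧ NZ b := by
  unfold NZ
  rw [List.forall_mem_cons]

theorem nz_one {x : G} : NZ [x] ↔ x ≠ 0 := by
  unfold NZ
  rw [List.forall_mem_singleton]

theorem nz_nil : NZ ([] : List G) := fun _ hx => absurd hx List.not_mem_nil

open Classical in
/-- append a letter if it is not zero -/
noncomputable def sn (C : List G) (x : G) : List G := if x = 0 then C else C ++ [x]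

theorem wrd_sn (h : IsAct ac) (τ : Bool) (C : List G) (x : G) (f : F) :
    wrd ac τ (sn C x) f = ac (ty τ C.length) x (wrd ac τ C f) := by
  unfold sn
  split_ifs with hx
  · rw [hx, h.zero]
  · rw [wrd_snoc]

theorem nz_sn {C : List G} (hC : NZ C) (x : G) : NZ (sn C x) := by
  unfold sn
  split_ifs with hx
  · exact hC
  · exact nz_append.mpr ⟨hC, nz_one.mpr hx⟩

theorem len_sn_le (C : List G) (x : G) : (sn C x).length ≤ C.length + 1 := by
  unfold sn
  split_ifs with hx
  · omega
  · simp

theorem le_len_sn (C : List G) (x : G) : C.length ≤ (sn C x).length := by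
  unfold sn
  split_ifs with hx
  · omega
  · simp

theorem head_sn (a : G) (C : List G) (x : G) : ∃ D, sn (a :: C) x = a :: D := by
  unfold sn
  split_ifs with hx
  · exact ⟨C, rfl⟩
  · exact ⟨C ++ [x], rfl⟩

/-- a letter of the type of the last letter -/
theorem last_merge (h : IsAct ac) (τ : Bool) (C : List G) (hC : NZ C) (hl : C ≠ []) (y : G) (f : F) :
    ∃ C', NZ C' ∧ C'.length ≤ C.length ∧
      ac (ty τ (C.length + 1)) y (wrd ac τ C f) = wrd ac τ C' f := by
  rcases List.eq_nil_or_concat' C with h1 | ⟨D, d, rfl⟩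
  · exact absurd h1 hl
  · rw [nz_append] at hC
    refine ⟨sn D (d + y), nz_sn hC.1 _, ?_, ?_⟩
    · have := len_sn_le D (d + y)
      simpa using this
    · rw [wrd_sn h, wrd_snoc, List.length_append, List.length_singleton, ty_succ, ty_succ,
        Bool.not_not, ← h.add]

end

section main

variable {K F : Type} [Field K] [Infinite K] {ac : Bool → K → F → F} (h : IsAct ac)
  {n m : ℕ} (hU : ∀ (τ σ : Bool) (u v : List K) (f : F), NZ u → NZ v →
    u.length + v.length ≤ 2 * (n + m + 2) + 1 → wrd ac τ u f = wrd ac σ v f → u = v)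
  {E : K → F → F} {τ : Bool}

theorem exists_other (u : K) : ∃ u' : K, u' ≠ 0 ∧ u' ≠ u := by
  classical
  obtain ⟨u', hu'⟩ := Infinite.exists_notMem_finset ({0, u} : Finset K)
  simp only [Finset.mem_insert, Finset.mem_singleton, not_or] at hu'
  exact ⟨u', hu'.1, hu'.2⟩

/-- the hypothesis with `m'` letters after the first one -/
def PR (ac : Bool → K → F → F) (n : ℕ) (E : K → F → F) (τ : Bool) (m' : ℕ) : Prop :=
  ∀ (f : F) (pre w : List K), pre.length = n → w.length = m' + 1 → NZ pre → NZ w →
    ∀ᶠ z in Filter.cofinite, ∃ C : List K, C.length = n + 1 + m' ∧ NZ C ∧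
      wrd ac (ty τ n) w (E z (wrd ac τ pre f)) = wrd ac τ C f

include h hU in
theorem right_step {m' : ℕ} (hm : m' + 1 ≤ m) (H : PR ac n E τ (m' + 1)) : PR ac n E τ m' := by
  intro f pre w hpre hw hnp hnw
  obtain ⟨w₀, u, rfl⟩ : ∃ w₀ u, w = w₀ ++ [u] := by
    rcases List.eq_nil_or_concat' w with h1 | h1
    · rw [h1] at hw
      simp at hw
    · exact h1
  rw [nz_append, nz_one] at hnw
  have hw₀ : w₀.length = m' := by simpa using hw
  have key : ∀ u₁ : K, u₁ ≠ 0 → ∀ᶠ z in Filter.cofinite, ∃ (C : List K) (x : K),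
      C.length = n + 1 + m' ∧ NZ C ∧
      wrd ac (ty τ n) (w₀ ++ [u₁]) (E z (wrd ac τ pre f)) =
        ac (ty τ (n + 1 + m')) x (wrd ac τ C f) := by
    intro u₁ hu₁
    refine (H f pre (w₀ ++ [u₁] ++ [1]) hpre (by simp [hw₀]) hnp ?_).mono fun z hz => ?_
    · rw [nz_append, nz_append, nz_one, nz_one]
      exact ⟨⟨hnw.1, hu₁⟩, one_ne_zero⟩
    · obtain ⟨C, hC1, hC2, hC3⟩ := hz
      obtain ⟨C₀, c, rfl⟩ : ∃ C₀ c, C = C₀ ++ [c] := by
        rcases List.eq_nil_or_concat' C with h1 | h1
        · rw [h1] at hC1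
          simp at hC1
        · exact h1
      rw [nz_append, nz_one] at hC2
      have hl : C₀.length = n + 1 + m' := by
        have : C₀.length + 1 = n + 1 + (m' + 1) := by simpa using hC1
        omega
      refine ⟨C₀, c - 1, hl, hC2.1, ?_⟩
      rw [wrd_snoc, wrd_snoc (a := C₀), ← ty_add] at hC3
      have h1 : n + (w₀ ++ [u₁]).length = n + 1 + m' := by
        simp only [List.length_append, List.length_singleton, hw₀]
        omega
      rw [h1, hl] at hC3
      rw [act_inv h hC3, ← h.add, sub_eq_add_neg]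
  obtain ⟨u', hu'⟩ := exists_other (K := K) u
  refine ((key u hnw.2).and (key u' hu'.1)).mono fun z hz => ?_
  obtain ⟨⟨C, x, hC1, hC2, hC3⟩, ⟨C', x', hC1', hC2', hC3'⟩⟩ := hz
  have hx : x = 0 := by
    by_contra hx
    set g := wrd ac (ty τ n) w₀ (E z (wrd ac τ pre f)) with hg
    have t1 : ∀ v : K, wrd ac (ty τ n) (w₀ ++ [v]) (E z (wrd ac τ pre f)) =
        ac (ty τ (n + m')) v g := by
      intro v
      rw [wrd_snoc, ← ty_add, hw₀]
    rw [t1] at hC3 hC3'
    have t2 : ty τ (n + m') = ty τ (n + 1 + m' + 1) := by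
      have : n + 1 + m' + 1 = n + m' + 1 + 1 := by omega
      rw [this, ty_succ, ty_succ, Bool.not_not]
    have e1 : g = wrd ac τ ((C ++ [x]) ++ [-u]) f := by
      rw [wrd_snoc, wrd_snoc, List.length_append, List.length_singleton, hC1, ← t2]
      exact act_inv h hC3
    have n1 : NZ ((C ++ [x]) ++ [-u]) := by
      rw [nz_append, nz_append, nz_one, nz_one]
      exact ⟨⟨hC2, hx⟩, neg_ne_zero.mpr hnw.2⟩
    have l1 : ((C ++ [x]) ++ [-u]).length = n + m' + 3 := by
      simp only [List.length_append, List.length_singleton, hC1]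
      omega
    by_cases hx' : x' = 0
    · rw [hx', h.zero] at hC3'
      obtain ⟨D, hD1, hD2, hD3⟩ := last_merge h τ C' hC2' (by
        intro h1
        rw [h1] at hC1'
        simp at hC1'
        omega) (-u') f
      have e2 : g = wrd ac τ D f := by
        rw [← hD3, hC1', ← t2]
        exact act_inv h hC3'
      have e3 := hU τ τ _ _ f n1 hD1 (by rw [l1]; omega) (e1.symm.trans e2)
      have := congrArg List.length e3
      rw [l1] at this
      omega
    · have e2 : g = wrd ac τ ((C' ++ [x']) ++ [-u']) f := by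
        rw [wrd_snoc, wrd_snoc, List.length_append, List.length_singleton, hC1', ← t2]
        exact act_inv h hC3'
      have n2 : NZ ((C' ++ [x']) ++ [-u']) := by
        rw [nz_append, nz_append, nz_one, nz_one]
        exact ⟨⟨hC2', hx'⟩, neg_ne_zero.mpr hu'.1⟩
      have l2 : ((C' ++ [x']) ++ [-u']).length = n + m' + 3 := by
        simp only [List.length_append, List.length_singleton, hC1']
        omega
      have e3 := hU τ τ _ _ f n1 n2 (by rw [l1, l2]; omega) (e1.symm.trans e2)
      have e4 := (List.append_inj' e3 rfl).2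
      have e5 : -u = -u' := by simpa using e4
      exact hu'.2 (neg_injective e5).symm
  refine ⟨C, hC1, hC2, ?_⟩
  rw [hC3, hx, h.zero]

/-- the statement with `n'` letters on the left -/
def PL (ac : Bool → K → F → F) (E : K → F → F) (σ : Bool) (n' : ℕ) : Prop :=
  ∀ (υ : Bool), ty υ n' = σ → ∀ (f : F) (pre : List K), pre.length = n' → NZ pre →
    ∀ᶠ z in Filter.cofinite, ∃ (C : List K) (x : K), C.length = n' ∧ NZ C ∧
      E z (wrd ac υ pre f) = ac σ x (wrd ac υ C f)

include h in
theorem bottom (H : PR ac n E τ 0) : PL ac E (ty τ n) n := by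
  intro υ hυ f pre hpre hnp
  have hυτ : υ = τ := by
    have h1 : ∀ (a b : Bool) (k : ℕ), ty a k = ty b k → a = b := by
      intro a b k hk
      simp only [ty] at hk
      revert hk
      cases a <;> cases b <;> cases k.bodd <;> simp
    exact h1 _ _ _ hυ
  subst hυτ
  refine (H f pre [1] hpre rfl hnp (nz_one.mpr one_ne_zero)).mono fun z hz => ?_
  obtain ⟨C, hC1, hC2, hC3⟩ := hz
  obtain ⟨C₀, c, rfl⟩ : ∃ C₀ c, C = C₀ ++ [c] := by
    rcases List.eq_nil_or_concat' C with h1 | h1
    · rw [h1] at hC1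
      simp at hC1
    · exact h1
  rw [nz_append, nz_one] at hC2
  have hl : C₀.length = n := by
    have : C₀.length + 1 = n + 1 + 0 := by simpa using hC1
    omega
  refine ⟨C₀, c - 1, hl, hC2.1, ?_⟩
  rw [wrd_snoc, hl] at hC3
  change ac (ty υ n) 1 (E z (wrd ac υ pre f)) = _ at hC3
  rw [act_inv h hC3, ← h.add, sub_eq_add_neg]

include h in
theorem left_key {σ : Bool} {n' : ℕ} (H : PL ac E σ (n' + 1)) (υ : Bool) (hυ : ty υ n' = σ)
    (f : F) (P : List K) (hP : P.length = n') (hnP : NZ P) :
    ∀ᶠ z in Filter.cofinite, ∃ (c : K) (C : List K) (x : K), C.length = n' ∧ NZ C ∧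
      E z (wrd ac υ P f) = ac σ x (wrd ac υ C (ac (!υ) (c - 1) f)) := by
  refine (H (!υ) (by rw [ty_succ, ty_not, Bool.not_not, hυ]) (ac (!υ) (-1) f) (1 :: P)
    (by rw [List.length_cons, hP]) (nz_cons.mpr ⟨one_ne_zero, hnP⟩)).mono fun z hz => ?_
  obtain ⟨C, x, hC1, hC2, hC3⟩ := hz
  cases C with
  | nil => simp at hC1
  | cons c C =>
    rw [nz_cons] at hC2
    refine ⟨c, C, x, by simpa using hC1, hC2.2, ?_⟩
    change E z (wrd ac (!!υ) P (ac (!υ) 1 (ac (!υ) (-1) f))) =
      ac σ x (wrd ac (!!υ) C (ac (!υ) c (ac (!υ) (-1) f))) at hC3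
    rw [Bool.not_not, ← h.add, ← h.add, neg_add_cancel, h.zero] at hC3
    rw [hC3, neg_add_eq_sub]

include h hU in
theorem left_step {σ : Bool} {n' : ℕ} (hn : n' + 1 ≤ n) (hn0 : n' ≠ 0)
    (H : PL ac E σ (n' + 1)) : PL ac E σ n' := by
  intro υ hυ f P hP hnP
  cases P with
  | nil => exact absurd hP.symm hn0
  | cons u P2 =>
  rw [nz_cons] at hnP
  obtain ⟨u', hu0, hu'⟩ := exists_other (K := K) u
  have k1 := left_key h H υ hυ f (u :: P2) hP (nz_cons.mpr hnP)
  have k2 := left_key h H υ hυ (ac υ (-u') (ac υ u f)) (u' :: P2) hP (nz_cons.mpr ⟨hu0, hnP.2⟩)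
  refine (k1.and k2).mono fun z hz => ?_
  obtain ⟨⟨c, C, x, hC1, hC2, hC3⟩, ⟨c', C', x', hC1', hC2', hC3'⟩⟩ := hz
  set f2 := ac υ u f with hf2
  have hf : f = ac υ (-u) f2 := act_inv h hf2.symm
  have e0 : wrd ac υ (u' :: P2) (ac υ (-u') f2) = wrd ac υ (u :: P2) f := by
    change wrd ac (!υ) P2 (ac υ u' (ac υ (-u') f2)) = wrd ac (!υ) P2 (ac υ u f)
    rw [← h.add, neg_add_cancel, h.zero]
  rw [e0] at hC3'
  have hc : c - 1 = 0 := by
    by_contra hc
    have n1 : NZ (-u :: (c - 1) :: C) := by
      rw [nz_cons, nz_cons]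
      exact ⟨neg_ne_zero.mpr hnP.1, hc, hC2⟩
    have lt : ∀ D : List K, D.length = n' → ∀ a b : K, ty υ (a :: b :: D).length = σ := by
      intro D hD a b
      rw [List.length_cons, List.length_cons, hD, ty_succ, ty_succ, Bool.not_not, hυ]
    have e1 : E z (wrd ac υ (u :: P2) f) = wrd ac υ (sn (-u :: (c - 1) :: C) x) f2 := by
      rw [wrd_sn h, lt C hC1, hC3]
      change _ = ac σ x (wrd ac (!!υ) C (ac (!υ) (c - 1) (ac υ (-u) f2)))
      rw [Bool.not_not, ← hf]
    have l1 := le_len_sn (-u :: (c - 1) :: C) x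
    have l2 := len_sn_le (-u :: (c - 1) :: C) x
    simp only [List.length_cons, hC1] at l1 l2
    by_cases hc' : c' - 1 = 0
    · rw [hc', h.zero] at hC3'
      cases C' with
      | nil => exact hn0 hC1'.symm
      | cons d D =>
        rw [nz_cons] at hC2'
        have hD : D.length + 1 = n' := hC1'
        have e2 : E z (wrd ac υ (u :: P2) f) =
            ac σ x' (wrd ac (!υ) D (ac υ (d - u') f2)) := by
          rw [hC3']
          change ac σ x' (wrd ac (!υ) D (ac υ d (ac υ (-u') f2))) = _
          rw [← h.add, neg_add_eq_sub]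
        have hty : ty (!υ) D.length = σ := by
          rw [← hυ, ← hD, ty_succ, ty_not]
        by_cases hd : d - u' = 0
        · rw [hd, h.zero] at e2
          have e3 : E z (wrd ac υ (u :: P2) f) = wrd ac (!υ) (sn D x') f2 := by
            rw [wrd_sn h, hty, e2]
          have l3 := len_sn_le D x'
          have e4 := hU υ (!υ) _ _ f2 (nz_sn n1 x) (nz_sn hC2'.2 x') (by omega)
            (e1.symm.trans e3)
          have := congrArg List.length e4
          omega
        · have e3 : E z (wrd ac υ (u :: P2) f) = wrd ac υ (sn ((d - u') :: D) x') f2 := by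
            rw [wrd_sn h, e2, List.length_cons, ty_succ, ← ty_not, hty]
            rfl
          have l3 := len_sn_le ((d - u') :: D) x'
          simp only [List.length_cons] at l3
          have e4 := hU υ υ _ _ f2 (nz_sn n1 x) (nz_sn (nz_cons.mpr ⟨hd, hC2'.2⟩) x') (by omega)
            (e1.symm.trans e3)
          have := congrArg List.length e4
          omega
    · have n2 : NZ (-u' :: (c' - 1) :: C') := by
        rw [nz_cons, nz_cons]
        exact ⟨neg_ne_zero.mpr hu0, hc', hC2'⟩
      have e2 : E z (wrd ac υ (u :: P2) f) = wrd ac υ (sn (-u' :: (c' - 1) :: C') x') f2 := by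
        rw [wrd_sn h, lt C' hC1', hC3']
        change _ = ac σ x' (wrd ac (!!υ) C' (ac (!υ) (c' - 1) (ac υ (-u') f2)))
        rw [Bool.not_not]
      have l3 := len_sn_le (-u' :: (c' - 1) :: C') x'
      simp only [List.length_cons, hC1'] at l3
      have e3 := hU υ υ _ _ f2 (nz_sn n1 x) (nz_sn n2 x') (by omega) (e1.symm.trans e2)
      obtain ⟨D1, hD1⟩ := head_sn (-u) ((c - 1) :: C) x
      obtain ⟨D2, hD2⟩ := head_sn (-u') ((c' - 1) :: C') x'
      rw [hD1, hD2, List.cons.injEq] at e3
      exact hu' (neg_injective e3.1).symm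
  refine ⟨C, x, hC1, hC2, ?_⟩
  rw [hC3, hc, h.zero]

end main

end Des

open Des in
theorem descent (hu : LUnique) : LDescent := by
  intro K F _ _ ac h N n m hN hno π hπ E hE τ H
  have hU : ∀ (τ σ : Bool) (u v : List K) (f : F), NZ u → NZ v →
      u.length + v.length ≤ 2 * (n + m + 2) + 1 → wrd ac τ u f = wrd ac σ v f → u = v := by
    intro τ σ u v f h1 h2 h3 h4
    exact (hu K F ac h _ (even_two_mul _) hno τ σ u v f h1 h2 (by omega) h4).1
  -- the right side
  have hR : ∀ k, k ≤ m → PR ac n E τ (m - k) := by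
    intro k
    induction k with
    | zero =>
      intro _ f pre w hpre hw hnp hnw
      cases w with
      | nil => simp at hw
      | cons r suf =>
        rw [nz_cons] at hnw
        rw [Nat.sub_zero] at hw ⊢
        exact H f pre suf r hpre (by simpa using hw) hnp hnw.1 hnw.2
    | succ k ih =>
      intro hk
      have h1 := ih (by omega)
      have h2 : m - k = (m - (k + 1)) + 1 := by omega
      rw [h2] at h1
      exact right_step h hU (by omega) h1
  have hR0 : PR ac n E τ 0 := by
    have := hR m le_rfl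
    rwa [Nat.sub_self] at this
  have hb := bottom h hR0
  set σ := ty τ n with hσ
  have hL : ∀ k, k + 1 ≤ n → PL ac E σ (n - k) := by
    intro k
    induction k with
    | zero => intro _; exact hb
    | succ k ih =>
      intro hk
      have h1 := ih (by omega)
      have h2 : n - k = (n - (k + 1)) + 1 := by omega
      rw [h2] at h1
      exact left_step h hU (by omega) (by omega) h1
  have hL0 : ∀ f, ∀ᶠ z in Filter.cofinite, ∃ x, E z f = ac σ x f := by
    intro f
    rcases Nat.eq_zero_or_pos n with hn | hn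
    · rw [hn] at hb
      refine (hb σ (ty_zero σ) f [] rfl nz_nil).mono fun z hz => ?_
      obtain ⟨C, x, hC1, -, hC3⟩ := hz
      rw [List.length_eq_zero_iff] at hC1
      rw [hC1] at hC3
      exact ⟨x, hC3⟩
    · have h1 := hL (n - 1) (by omega)
      have h2 : n - (n - 1) = 0 + 1 := by omega
      rw [h2] at h1
      refine (left_key h h1 σ (ty_zero σ) f [] rfl nz_nil).mono fun z hz => ?_
      obtain ⟨c, C, x, hC1, -, hC3⟩ := hz
      rw [List.length_eq_zero_iff] at hC1
      rw [hC1] at hC3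
      change E z f = ac σ x (ac (!σ) (c - 1) f) at hC3
      have h3 := hE (!σ) z f
      have hne : ¬ ((!σ) = σ) := by cases σ <;> simp
      rw [hC3, hπ, hπ, if_neg hne, if_pos rfl, add_zero] at h3
      have h4 : c - 1 = 0 := by
        have : π (!σ) f + (c - 1) = π (!σ) f + 0 := by rw [h3, add_zero]
        exact add_left_cancel this
      refine ⟨x, ?_⟩
      rw [hC3, h4, h.zero]
  intro f
  refine (hL0 f).mono fun z hz => ?_
  obtain ⟨x, hx⟩ := hz
  have h3 := hE σ z f
  rw [hx, hπ, if_pos rfl] at h3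
  have h4 : x = 0 := by
    have : π σ f + x = π σ f + 0 := by rw [h3, add_zero]
    exact add_left_cancel this
  rw [hx, h4, h.zero]

end Pool.Agent.H97F
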