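import Pool.Agent.H97F.Chart

/-!
# The divisor of the special words
-/

set_option autoImplicit false

namespace Pool.Agent.H97F

open MvPolynomial

section General

variable {K : Type} [Field K] [IsAlgClosed K] {ι : Type} [Finite ι]

theorem dvd_pow_of_ne (p h : MvPolynomial ι K)
    (H : ∀ a : ι → K, eval a h ≠ 0 → eval a p ≠ 0) : ∃ n, p ∣ h ^ n := by
  have h1 : h ∈ vanishingIdeal K (zeroLocus K (Ideal.span {p})) := by
    intro a ha
    have h2 : aeval a p = 0 := ha p (Ideal.subset_span rfl)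
    rw [MvPolynomial.aeval_eq_eval] at h2 ⊢
    by_contra h3
    exact H a h3 h2
  rw [vanishingIdeal_zeroLocus_eq_radical] at h1
  obtain ⟨n, hn⟩ := h1
  exact ⟨n, Ideal.mem_span_singleton.1 hn⟩

theorem X_dvd_of_vanish (p : MvPolynomial ι K) (i : ι)
    (H : ∀ a : ι → K, a i = 0 → eval a p = 0) : X i ∣ p := by
  have h1 : p ∈ vanishingIdeal K (zeroLocus K (Ideal.span {(X i : MvPolynomial ι K)})) := by
    intro a ha
    have h2 : aeval a (X i : MvPolynomial ι K) = 0 := ha _ (Ideal.subset_span rfl)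
    rw [aeval_X] at h2
    rw [MvPolynomial.aeval_eq_eval]
    exact H a h2
  rw [vanishingIdeal_zeroLocus_eq_radical] at h1
  obtain ⟨n, hn⟩ := h1
  exact X_prime.dvd_of_dvd_pow (Ideal.mem_span_singleton.1 hn)

end General

/-- a letter in the middle -/
def IsMid {N : ℕ} (i : Va N) : Prop := ∃ j : Fin N, i = Sum.inr j ∧ 0 < (j : ℕ) ∧ (j : ℕ) + 1 < N

open Classical in
/-- the exponents of the product of the letters in the middle -/
noncomputable def midD (N : ℕ) : Va N →₀ ℕ :=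
  Finsupp.equivFunOnFinite.symm fun i => if IsMid i then 1 else 0

theorem midP_eq (K : Type) [Field K] (N : ℕ) : midP K N = monomial (midD N) 1 := by
  classical
  rw [MvPolynomial.monomial_eq, map_one, one_mul, Finsupp.prod_fintype _ _ (fun i => pow_zero _),
    Fintype.prod_sum_type]
  have h1 : ∏ a₁ : Fin N, (X (Sum.inl a₁) : MvPolynomial (Va N) K) ^ (midD N) (Sum.inl a₁) = 1 := by
    refine Finset.prod_eq_one fun i _ => ?_
    have : ¬ IsMid (Sum.inl i : Va N) := by rintro ⟨j, hj, -⟩; cases hj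
    simp [midD, this]
  rw [h1, one_mul]
  unfold midP
  refine Finset.prod_congr rfl fun i _ => ?_
  by_cases h : 0 < (i : ℕ) ∧ (i : ℕ) + 1 < N
  · have : IsMid (Sum.inr i : Va N) := ⟨i, rfl, h.1, h.2⟩
    simp [midD, this, h]
  · have : ¬ IsMid (Sum.inr i : Va N) := by
      rintro ⟨j, hj, h1, h2⟩
      cases hj
      exact h ⟨h1, h2⟩
    simp [midD, this, h]

section

variable {K : Type} [Field K] [IsAlgClosed K] {N : ℕ}

/-- a polynomial without zeros outside the middle letters is a monomial -/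
theorem mono_of_ne (p : MvPolynomial (Va N) K)
    (H : ∀ a : Va N → K, eval a (midP K N) ≠ 0 → eval a p ≠ 0) :
    ∃ (d : Va N →₀ ℕ) (c : K), c ≠ 0 ∧ p = monomial d c ∧ ∀ i, d i ≠ 0 → IsMid i := by
  obtain ⟨n, hn⟩ := dvd_pow_of_ne p (midP K N) H
  rw [midP_eq, monomial_pow, one_pow, dvd_monomial_one_iff_exists] at hn
  obtain ⟨m, u, hm, hu, rfl⟩ := hn
  refine ⟨m, u, hu.ne_zero, rfl, fun i hi => ?_⟩
  have h1 := hm i
  by_contra h2
  have h3 : (n • midD N) i = 0 := by simp [midD, h2]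
  omega

variable [CharZero K] (S : Sys K N)

/-- the local inverse of a chart -/
theorem reg (hR : LRegular) (hN : 2 ≤ N) (hT : S.Tree) (τ : Bool) (a₀ : Va N → K)
    (ha₀ : eval a₀ (midP K N) ≠ 0) :
    Function.Injective (bind₁ (ch S τ) : MvPolynomial (Va N) K → MvPolynomial (Va N) K) ∧
      ∃ r : MvPolynomial (Va N) K, eval (fun i => eval a₀ (ch S τ i)) r ≠ 0 ∧
        (∀ u : MvPolynomial (Va N) K, ∃ (g : MvPolynomial (Va N) K) (k : ℕ),
          u * (bind₁ (ch S τ) r) ^ k = bind₁ (ch S τ) g) ∧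
        (∀ y : Va N → K, eval y r ≠ 0 →
          ∃ a, eval a (midP K N) ≠ 0 ∧ ∀ i, eval a (ch S τ i) = y i) := by
  refine hR K (Va N) (ch S τ) (midP K N) ?_ a₀ ha₀
  intro a b ha hb hab
  have h1 : (fun i => eval a (ch S τ i)) = fun i => eval b (ch S τ i) := funext hab
  rw [eval_ch, eval_ch] at h1
  have hf : (fun j => a (Sum.inl j)) = fun j => b (Sum.inl j) := by
    funext j
    exact congrFun h1 (Sum.inl j)
  have hw : wrd (fun (τ : Bool) (t : K) f => S.act τ t f) τ (lets a) (fun j => a (Sum.inl j)) =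
      wrd (fun (τ : Bool) (t : K) f => S.act τ t f) τ (lets b) (fun j => a (Sum.inl j)) := by
    funext j
    have := congrFun h1 (Sum.inr j)
    simp only [Sum.elim_inr] at this
    rw [this, hf]
  obtain ⟨x, m, y, hx, hm⟩ := exists_split (w := lets a) (by rw [length_lets]; exact hN)
  obtain ⟨x', m', y', hx', hm'⟩ := exists_split (w := lets b) (by rw [length_lets]; exact hN)
  rw [length_lets] at hm hm'
  rw [← pt_lets a, hx, eval_midP_pt _ _ _ hm] at ha
  rw [← pt_lets b, hx', eval_midP_pt _ _ _ hm'] at hb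
  rw [hx, hx'] at hw
  obtain ⟨e1, e2, e3⟩ := chart_inj (isAct S) hN hT τ _ hm hm' ha hb hw
  rw [← pt_lets a, ← pt_lets b, hx, hx', hf, e1, e2, e3]

theorem eval_bind (τ : Bool) (a : Va N → K) (q : MvPolynomial (Va N) K) :
    eval a (bind₁ (ch S τ) q) = eval (fun i => eval a (ch S τ i)) q := by
  rw [← pt_lets a, eval_bind_pt S τ _ (length_lets a), eval_ch_pt S τ _ (length_lets a)]

theorem exists_ne_mid : ∃ a : Va N → K, eval a (midP K N) ≠ 0 :=
  ⟨fun _ => 1, (eval_midP_ne _).2 fun _ _ _ => one_ne_zero⟩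

theorem bind_inj (hR : LRegular) (hN : 2 ≤ N) (hT : S.Tree) (τ : Bool) :
    Function.Injective (bind₁ (ch S τ) : MvPolynomial (Va N) K → MvPolynomial (Va N) K) := by
  obtain ⟨a, ha⟩ := exists_ne_mid (K := K) (N := N)
  exact (reg S hR hN hT τ a ha).1

/-- the reduced fraction of a polynomial in the letters -/
theorem lowest (hR : LRegular) (hN : 2 ≤ N) (hT : S.Tree) (τ : Bool)
    (u : MvPolynomial (Va N) K) : ∃ g h : MvPolynomial (Va N) K,
      u * bind₁ (ch S τ) h = bind₁ (ch S τ) g ∧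
      ∀ a : Va N → K, eval a (midP K N) ≠ 0 → eval a (bind₁ (ch S τ) h) ≠ 0 := by
  obtain ⟨a₀, ha₀⟩ := exists_ne_mid (K := K) (N := N)
  obtain ⟨hinj, r₀, hr₀, hu₀, -⟩ := reg S hR hN hT τ a₀ ha₀
  obtain ⟨g₀, k₀, hg₀⟩ := hu₀ u
  have hr0 : r₀ ≠ 0 := by
    rintro rfl
    simp at hr₀
  obtain ⟨g, h, c, hrel, hcg, hch⟩ :=
    UniqueFactorizationMonoid.exists_reduced_factors' g₀ (r₀ ^ k₀) (pow_ne_zero _ hr0)
  have hc : c ≠ 0 := by
    rintro rfl
    rw [zero_mul] at hch
    exact pow_ne_zero _ hr0 hch.symm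
  have hbc : bind₁ (ch S τ) c ≠ 0 := by
    intro h0
    exact hc (hinj (h0.trans (map_zero _).symm))
  refine ⟨g, h, ?_, ?_⟩
  · rw [← map_pow, ← hch, ← hcg, map_mul, map_mul] at hg₀
    apply mul_left_cancel₀ hbc
    rw [← hg₀]
    ring
  · intro a ha
    obtain ⟨-, r₁, hr₁, hu₁, -⟩ := reg S hR hN hT τ a ha
    obtain ⟨g₁, k₁, hg₁⟩ := hu₁ u
    -- g * r₁ ^ k₁ = g₁ * h
    have e1 : g * r₁ ^ k₁ = g₁ * h := by
      apply hinj
      have e2 : u * bind₁ (ch S τ) h = bind₁ (ch S τ) g := by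
        rw [← map_pow, ← hch, ← hcg, map_mul, map_mul] at hg₀
        apply mul_left_cancel₀ hbc
        rw [← hg₀]
        ring
      rw [map_mul, map_mul, map_pow, ← e2, ← hg₁]
      ring
    have e3 : h ∣ r₁ ^ k₁ := by
      have e4 : h ∣ g * r₁ ^ k₁ := ⟨g₁, by rw [e1]; ring⟩
      exact hrel.symm.dvd_of_dvd_mul_left e4
    rw [eval_bind]
    intro h0
    obtain ⟨t, ht⟩ := e3
    have e5 : eval (fun i => eval a (ch S τ i)) (r₁ ^ k₁) = 0 := by
      rw [ht, map_mul, h0, zero_mul]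
    rw [map_pow] at e5
    exact pow_ne_zero k₁ hr₁ e5

/-- there is a prime polynomial whose composite with the chart is a monomial in the letter `e` and
the middle letters -/
theorem exists_prime (hR : LRegular) (hN : 2 ≤ N) (hT : S.Tree) (τ : Bool) (e : Va N)
    (he : ¬ IsMid e) : ∃ q : MvPolynomial (Va N) K, Prime q ∧ ∃ (d : Va N →₀ ℕ) (c : K), c ≠ 0 ∧
      bind₁ (ch S τ) q = monomial d c ∧ d e = 1 ∧ ∀ i, d i ≠ 0 → i = e ∨ IsMid i := by
  have hinj := bind_inj S hR hN hT τ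
  obtain ⟨g, h, hgh, hne⟩ := lowest S hR hN hT τ (X e)
  obtain ⟨d₁, c₁, hc₁, hh, hd₁⟩ := mono_of_ne _ hne
  have hg : bind₁ (ch S τ) g = monomial (Finsupp.single e 1 + d₁) c₁ := by
    rw [← hgh, hh, X, monomial_mul, one_mul]
  have hd1e : d₁ e = 0 := by
    by_contra h0
    exact he (hd₁ e h0)
  have key : ∀ g : MvPolynomial (Va N) K, g ≠ 0 → X e ∣ bind₁ (ch S τ) g →
      ∃ q, Prime q ∧ q ∣ g ∧ X e ∣ bind₁ (ch S τ) q := by
    intro g
    refine UniqueFactorizationMonoid.induction_on_prime g ?_ ?_ ?_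
    · intro h0
      exact absurd rfl h0
    · intro x hx _ hdvd
      exfalso
      have : IsUnit (X e : MvPolynomial (Va N) K) :=
        isUnit_of_dvd_unit hdvd (hx.map (bind₁ (ch S τ)))
      exact X_prime.not_isUnit this
    · intro a p ha hp ih _ hdvd
      rw [map_mul] at hdvd
      rcases X_prime.dvd_or_dvd hdvd with h1 | h1
      · exact ⟨p, hp, dvd_mul_right _ _, h1⟩
      · obtain ⟨q, hq1, hq2, hq3⟩ := ih ha h1
        exact ⟨q, hq1, hq2.mul_left _, hq3⟩
  have hg0 : g ≠ 0 := by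
    rintro rfl
    rw [map_zero] at hg
    exact hc₁ (monomial_eq_zero.1 hg.symm)
  obtain ⟨q, hq1, hq2, hq3⟩ := key g hg0 (by rw [← hgh]; exact dvd_mul_right _ _)
  have h1 : bind₁ (ch S τ) q ∣ monomial (Finsupp.single e 1 + d₁) c₁ := by
    rw [← hg]
    exact map_dvd _ hq2
  rw [dvd_monomial_iff_exists hc₁] at h1
  obtain ⟨m, b, hm, hb, hqm⟩ := h1
  have hb0 : b ≠ 0 := by
    rintro rfl
    exact hc₁ (zero_dvd_iff.1 hb)
  rw [hqm, X_dvd_monomial] at hq3
  refine ⟨q, hq1, m, b, hb0, hqm, ?_, ?_⟩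
  · have h2 := hm e
    rw [Finsupp.add_apply, Finsupp.single_eq_same, hd1e] at h2
    rcases hq3 with h3 | h3
    · exact absurd h3 hb0
    · omega
  · intro i hi
    by_cases hie : i = e
    · exact Or.inl hie
    · right
      apply hd₁
      have h2 := hm i
      rw [Finsupp.add_apply, Finsupp.single_eq_of_ne hie] at h2
      omega

/-- the prime polynomial with this property is unique -/
theorem form_of_dvd (hR : LRegular) (hN : 2 ≤ N) (hT : S.Tree) (τ : Bool) (e : Va N)
    (he : ¬ IsMid e) (q' : MvPolynomial (Va N) K) (hq' : Prime q')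
    (hdvd : X e ∣ bind₁ (ch S τ) q') : ∃ (d : Va N →₀ ℕ) (c : K), c ≠ 0 ∧
      bind₁ (ch S τ) q' = monomial d c ∧ d e = 1 ∧ ∀ i, d i ≠ 0 → i = e ∨ IsMid i := by
  classical
  obtain ⟨q, hq, d, c, hc, hqd, hde, hsupp⟩ := exists_prime S hR hN hT τ e he
  have hinj := bind_inj S hR hN hT τ
  obtain ⟨m', hm'⟩ := hdvd
  obtain ⟨d', hd'⟩ : ∃ d', d = Finsupp.single e 1 + d' := by
    refine ⟨d - Finsupp.single e 1, ?_⟩
    rw [add_comm, tsub_add_cancel_of_le]
    rw [Finsupp.single_le_iff]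
    omega
  have hd'e : d' e = 0 := by
    rw [hd', Finsupp.add_apply, Finsupp.single_eq_same] at hde
    omega
  have hq2 : bind₁ (ch S τ) q = X e * monomial d' c := by
    rw [hqd, hd', X, monomial_mul, one_mul]
  -- the point
  obtain ⟨a₀, ha₀⟩ : ∃ a₀ : Va N → K, a₀ = fun i => if i = e then 0 else 1 := ⟨_, rfl⟩
  have hmid : eval a₀ (midP K N) ≠ 0 := by
    rw [eval_midP_ne]
    intro i h1 h2
    rw [ha₀]
    simp only
    rw [if_neg]
    · exact one_ne_zero
    · rintro rfl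
      exact he ⟨i, rfl, h1, h2⟩
  have hmon : eval a₀ (monomial d' c) ≠ 0 := by
    rw [eval_monomial]
    refine mul_ne_zero hc ?_
    rw [Finsupp.prod, Finset.prod_ne_zero_iff]
    intro i hi
    rw [ha₀]
    simp only
    rw [if_neg, one_pow]
    · exact one_ne_zero
    · rintro rfl
      exact (Finsupp.mem_support_iff.1 hi) hd'e
  obtain ⟨-, r, hr, hu, -⟩ := reg S hR hN hT τ a₀ hmid
  obtain ⟨g₁, k₁, hg₁⟩ := hu m'
  obtain ⟨g₂, k₂, hg₂⟩ := hu (monomial d' c)
  have e1 : q' * g₂ * r ^ k₁ = q * g₁ * r ^ k₂ := by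
    apply hinj
    simp only [map_mul, map_pow]
    rw [← hg₁, ← hg₂, hm', hq2]
    ring
  have hA0 : eval (fun i => eval a₀ (ch S τ i)) q = 0 := by
    rw [← eval_bind, hq2, map_mul, eval_X, ha₀]
    simp
  have hA2 : eval (fun i => eval a₀ (ch S τ i)) g₂ ≠ 0 := by
    rw [← eval_bind, ← hg₂, map_mul, map_pow, eval_bind]
    exact mul_ne_zero hmon (pow_ne_zero _ hr)
  have h2 : q ∣ q' * g₂ * r ^ k₁ := by
    rw [e1, mul_assoc]
    exact dvd_mul_right _ _
  have h3 : q ∣ q' := by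
    rcases hq.dvd_or_dvd h2 with h4 | h4
    · rcases hq.dvd_or_dvd h4 with h5 | h5
      · exact h5
      · exfalso
        obtain ⟨t, ht⟩ := h5
        rw [ht, map_mul, hA0, zero_mul] at hA2
        exact hA2 rfl
    · exfalso
      obtain ⟨t, ht⟩ := hq.dvd_of_dvd_pow h4
      rw [ht, map_mul, hA0, zero_mul] at hr
      exact hr rfl
  obtain ⟨t, ht⟩ := h3
  have htu : IsUnit t := by
    rcases hq'.irreducible.isUnit_or_isUnit ht with h4 | h4
    · exact absurd h4 hq.not_isUnit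
    · exact h4
  obtain ⟨s, hs, hst⟩ := (MvPolynomial.isUnit_iff_eq_C_of_isReduced (P := t)).1 htu
  refine ⟨d, c * s, mul_ne_zero hc hs.ne_zero, ?_, hde, hsupp⟩
  rw [ht, map_mul, hqd, hst, bind₁_C_right, mul_comm, C_mul_monomial, mul_comm]

end

/-- the monomial in the letters of a word with exponents `e n`, `e (n + 1)`, ... -/
def mono {K : Type} [Field K] (e : ℕ → ℕ) : ℕ → List K → K
  | _, [] => 1
  | n, x :: l => x ^ e n * mono e (n + 1) l

section

variable {K : Type} [Field K]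

theorem mono_append (e : ℕ → ℕ) (n : ℕ) (u v : List K) :
    mono e n (u ++ v) = mono e n u * mono e (n + u.length) v := by
  induction u generalizing n with
  | nil => simp [mono]
  | cons x u ih =>
    simp only [List.cons_append, mono, List.length_cons]
    rw [ih, mul_assoc]
    congr 3
    omega

theorem mono_ne_zero (e : ℕ → ℕ) (n : ℕ) {u : List K} (h : NZ u) : mono e n u ≠ 0 := by
  induction u generalizing n with
  | nil => simp [mono]
  | cons x u ih =>
    obtain ⟨h1, h2⟩ := nz_cons.1 h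
    exact mul_ne_zero (pow_ne_zero _ h1) (ih _ h2)

theorem prod_eq_mono (e : ℕ → ℕ) (n : ℕ) (w : List K) :
    ∏ i : Fin w.length, (w.getD i 0) ^ e (n + i) = mono e n w := by
  induction w generalizing n with
  | nil => simp [mono]
  | cons x w ih =>
    rw [mono, ← ih]
    rw [show ∏ i : Fin (x :: w).length, ((x :: w).getD i 0) ^ e (n + i) =
      ∏ i : Fin (w.length + 1), ((x :: w).getD i 0) ^ e (n + i) from rfl, Fin.prod_univ_succ]
    congr 1
    refine Finset.prod_congr rfl fun i _ => ?_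
    simp only [Fin.val_succ, List.getD_cons_succ]
    congr 2
    omega

theorem eval_monomial_pt {N : ℕ} (d : Va N →₀ ℕ) (c : K) (hd : ∀ j, d (Sum.inl j) = 0)
    (f : Fin N → K) {w : List K} (hw : w.length = N) :
    eval (pt f w) (monomial d c) =
      c * mono (fun i => if h : i < N then d (Sum.inr ⟨i, h⟩) else 0) 0 w := by
  subst hw
  rw [eval_monomial, Finsupp.prod_fintype _ _ (fun i => pow_zero _), Fintype.prod_sum_type]
  have h1 : ∏ a₁ : Fin w.length, (pt f w (Sum.inl a₁)) ^ d (Sum.inl a₁) = 1 :=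
    Finset.prod_eq_one fun i _ => by rw [hd, pow_zero]
  rw [h1, one_mul, ← prod_eq_mono]
  congr 1
  refine Finset.prod_congr rfl fun i _ => ?_
  simp [pt]

end

section

variable {K : Type} [Field K] [IsAlgClosed K] [CharZero K] {N : ℕ} (S : Sys K N)

/-- (L3) The polynomial of the special words. -/
theorem exists_q (hR : LRegular) (hN : 3 ≤ N) (hT : S.Tree) (τ : Bool) :
    ∃ (q : MvPolynomial (Va N) K) (y y' : ℕ → ℕ) (c c' : K), c ≠ 0 ∧ c' ≠ 0 ∧ y 0 = 0 ∧
      y (N - 1) = 1 ∧ y' 0 = 1 ∧ y' (N - 1) = 0 ∧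
      (∀ (f : Fin N → K) (w : List K), w.length = N →
        eval (Sum.elim f (wrd (fun (τ : Bool) (t : K) f => S.act τ t f) τ w f)) q =
          c * mono y 0 w) ∧
      (∀ (f : Fin N → K) (w : List K), w.length = N →
        eval (Sum.elim f (wrd (fun (τ : Bool) (t : K) f => S.act τ t f) (!τ) w f)) q =
          c' * mono y' 0 w) := by
  have hN2 : 2 ≤ N := by omega
  obtain ⟨e0, he0⟩ : ∃ e : Va N, e = Sum.inr ⟨0, by omega⟩ := ⟨_, rfl⟩
  obtain ⟨e1, he1⟩ : ∃ e : Va N, e = Sum.inr ⟨N - 1, by omega⟩ := ⟨_, rfl⟩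
  have hm0 : ¬ IsMid e0 := by
    rintro ⟨j, hj, h1, h2⟩
    rw [he0] at hj
    cases hj
    simp at h1
  have hm1 : ¬ IsMid e1 := by
    rintro ⟨j, hj, h1, h2⟩
    rw [he1] at hj
    cases hj
    simp only at h2
    omega
  obtain ⟨q, hq, d', c', hc', hqd', hde', hsupp'⟩ := exists_prime S hR hN2 hT (!τ) e0 hm0
  have hdvd : X e1 ∣ bind₁ (ch S τ) q := by
    apply X_dvd_of_vanish
    intro a ha
    rw [he1] at ha
    obtain ⟨x, m, y, hx, hm⟩ := exists_split (w := lets a) (by rw [length_lets]; exact hN2)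
    rw [length_lets] at hm
    have hy : y = 0 := by
      have h1 : (lets a).getD (N - 1) 0 = y := by
        rw [hx]
        have : N - 1 = m.length + 1 := by omega
        rw [this, List.getD_cons_succ, List.getD_eq_getElem?_getD]
        simp
      rw [← h1]
      have h2 : N - 1 < N := by omega
      simp [lets, h2, ha]
    rw [← pt_lets a, hx, eval_bind_pt S τ _ (by simp; omega), hy]
    have h3 : wrd (fun (τ : Bool) (t : K) f => S.act τ t f) τ (x :: (m ++ [0]))
        (fun j => a (Sum.inl j)) = wrd (fun (τ : Bool) (t : K) f => S.act τ t f) (!τ)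
        (0 :: (x :: m)) (fun j => a (Sum.inl j)) := by
      have h4 : wrd (fun (τ : Bool) (t : K) f => S.act τ t f) (!τ) (0 :: (x :: m))
          (fun j => a (Sum.inl j)) = wrd (fun (τ : Bool) (t : K) f => S.act τ t f) (!(!τ))
          (x :: m) (S.act (!τ) 0 (fun j => a (Sum.inl j))) := rfl
      rw [h4, (isAct S).zero, Bool.not_not, ← List.cons_append, wrd_append]
      exact (isAct S).zero _ _
    rw [h3, ← eval_bind_pt S (!τ) _ (by simp; omega), hqd', eval_monomial]
    refine mul_eq_zero_of_right _ ?_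
    rw [Finsupp.prod_fintype _ _ (fun i => pow_zero _)]
    refine Finset.prod_eq_zero (Finset.mem_univ e0) ?_
    rw [hde', pow_one, he0]
    simp [pt]
  obtain ⟨d, c, hc, hqd, hde, hsupp⟩ := form_of_dvd S hR hN2 hT τ e1 hm1 q hq hdvd
  have hinl : ∀ j, d (Sum.inl j) = 0 := by
    intro j
    by_contra h
    rcases hsupp _ h with h1 | ⟨i, h1, -⟩
    · rw [he1] at h1
      cases h1
    · cases h1
  have hinl' : ∀ j, d' (Sum.inl j) = 0 := by
    intro j
    by_contra h
    rcases hsupp' _ h with h1 | ⟨i, h1, -⟩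
    · rw [he0] at h1
      cases h1
    · cases h1
  refine ⟨q, fun i => if h : i < N then d (Sum.inr ⟨i, h⟩) else 0,
    fun i => if h : i < N then d' (Sum.inr ⟨i, h⟩) else 0, c, c', hc, hc', ?_, ?_, ?_, ?_, ?_, ?_⟩
  · have h0 : 0 < N := by omega
    simp only [h0, dif_pos]
    by_contra h
    rcases hsupp _ h with h1 | h1
    · rw [he1] at h1
      simp only [Sum.inr.injEq, Fin.mk.injEq] at h1
      omega
    · exact hm0 (he0 ▸ h1)
  · have h0 : N - 1 < N := by omega
    simp only [h0, dif_pos]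
    rw [← he1]
    exact hde
  · have h0 : 0 < N := by omega
    simp only [h0, dif_pos]
    rw [← he0]
    exact hde'
  · have h0 : N - 1 < N := by omega
    simp only [h0, dif_pos]
    by_contra h
    rcases hsupp' _ h with h1 | h1
    · rw [he0] at h1
      simp only [Sum.inr.injEq, Fin.mk.injEq] at h1
      omega
    · exact hm1 (he1 ▸ h1)
  · intro f w hw
    rw [← eval_bind_pt S τ f hw, hqd, eval_monomial_pt d c hinl f hw]
  · intro f w hw
    rw [← eval_bind_pt S (!τ) f hw, hqd', eval_monomial_pt d' c' hinl' f hw]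

end

end Pool.Agent.H97F
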