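import Pool.Agent.H97F.Defs

/-!
# The conclusion for finite fields

Sequences of elements of the algebraic closures of the fields `K n` whose degrees are bounded, modulo
a nonprincipal ultrafilter, form an algebraically closed field.
-/

set_option autoImplicit false

namespace Pool.Agent.H97F

open MvPolynomial

namespace Fin9

section

variable (K : ℕ → Type) [∀ n, Field (K n)]

/-- bounded degree -/
def Bd (x : ∀ n, AlgebraicClosure (K n)) : Prop :=
  ∃ e : ℕ, ∀ n, ∃ L : IntermediateField (K n) (AlgebraicClosure (K n)),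
    FiniteDimensional (K n) L ∧ Module.finrank (K n) L ≤ e ∧ x n ∈ L

variable {K}

theorem Bd.const {x : ∀ n, AlgebraicClosure (K n)}
    (h : ∀ n, ∃ c : K n, algebraMap (K n) _ c = x n) : Bd K x := by
  refine ⟨1, fun n => ⟨⊥, inferInstance, ?_, ?_⟩⟩
  · rw [IntermediateField.finrank_bot]
  · obtain ⟨c, hc⟩ := h n
    rw [← hc]
    exact IntermediateField.algebraMap_mem _ c

theorem Bd.two {x y : ∀ n, AlgebraicClosure (K n)} (hx : Bd K x) (hy : Bd K y) :
    ∃ e : ℕ, ∀ n, ∃ L : IntermediateField (K n) (AlgebraicClosure (K n)),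
      FiniteDimensional (K n) L ∧ Module.finrank (K n) L ≤ e ∧ x n ∈ L ∧ y n ∈ L := by
  obtain ⟨e, he⟩ := hx
  obtain ⟨d, hd⟩ := hy
  refine ⟨e * d, fun n => ?_⟩
  obtain ⟨L, h1, h2, h3⟩ := he n
  obtain ⟨L', h1', h2', h3'⟩ := hd n
  refine ⟨L ⊔ L', inferInstance, ?_, (le_sup_left : L ≤ L ⊔ L') h3,
    (le_sup_right : L' ≤ L ⊔ L') h3'⟩
  exact (IntermediateField.finrank_sup_le L L').trans (Nat.mul_le_mul h2 h2')

theorem Bd.fam {ι : Type} (s : Finset ι) (x : ι → ∀ n, AlgebraicClosure (K n))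
    (hx : ∀ i, Bd K (x i)) :
    ∃ e : ℕ, ∀ n, ∃ L : IntermediateField (K n) (AlgebraicClosure (K n)),
      FiniteDimensional (K n) L ∧ Module.finrank (K n) L ≤ e ∧ ∀ i ∈ s, x i n ∈ L := by
  classical
  induction s using Finset.induction_on with
  | empty =>
    refine ⟨1, fun n => ⟨⊥, inferInstance, ?_, ?_⟩⟩
    · rw [IntermediateField.finrank_bot]
    · simp
  | insert i s hi ih =>
    obtain ⟨e, he⟩ := hx i
    obtain ⟨d, hd⟩ := ih
    refine ⟨e * d, fun n => ?_⟩
    obtain ⟨L, h1, h2, h3⟩ := he n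
    obtain ⟨L', h1', h2', h3'⟩ := hd n
    refine ⟨L ⊔ L', inferInstance, ?_, fun j hj => ?_⟩
    · exact (IntermediateField.finrank_sup_le L L').trans (Nat.mul_le_mul h2 h2')
    · rcases Finset.mem_insert.1 hj with rfl | hj
      · exact (le_sup_left : L ≤ L ⊔ L') h3
      · exact (le_sup_right : L' ≤ L ⊔ L') (h3' j hj)

variable (K)

/-- the sequences of bounded degree -/
def BB : Subring (∀ n, AlgebraicClosure (K n)) where
  carrier := {x | Bd K x}
  mul_mem' := by
    intro x y hx hy
    obtain ⟨e, he⟩ := Bd.two hx hy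
    refine ⟨e, fun n => ?_⟩
    obtain ⟨L, h1, h2, h3, h4⟩ := he n
    exact ⟨L, h1, h2, L.mul_mem h3 h4⟩
  one_mem' := Bd.const fun n => ⟨1, by simp⟩
  add_mem' := by
    intro x y hx hy
    obtain ⟨e, he⟩ := Bd.two hx hy
    refine ⟨e, fun n => ?_⟩
    obtain ⟨L, h1, h2, h3, h4⟩ := he n
    exact ⟨L, h1, h2, L.add_mem h3 h4⟩
  zero_mem' := Bd.const fun n => ⟨0, by simp⟩
  neg_mem' := by
    intro x hx
    obtain ⟨e, he⟩ := hx
    refine ⟨e, fun n => ?_⟩
    obtain ⟨L, h1, h2, h3⟩ := he n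
    exact ⟨L, h1, h2, L.neg_mem h3⟩

/-- the value at `n` -/
noncomputable def ev (n : ℕ) : BB K →+* AlgebraicClosure (K n) := (Pi.evalRingHom _ n).comp (BB K).subtype

theorem ev_apply (n : ℕ) (x : BB K) : ev K n x = (x : ∀ n, AlgebraicClosure (K n)) n := rfl

/-- the sequences vanishing almost everywhere -/
def II : Ideal (BB K) where
  carrier := {x | ∀ᶠ n in (Filter.hyperfilter ℕ : Filter ℕ), ev K n x = 0}
  add_mem' := by
    intro a b ha hb
    filter_upwards [ha, hb] with n h1 h2
    rw [map_add, h1, h2, add_zero]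
  zero_mem' := Filter.Eventually.of_forall fun n => map_zero _
  smul_mem' := by
    intro c a ha
    filter_upwards [ha] with n h1
    rw [smul_eq_mul, map_mul, h1, mul_zero]

theorem mem_II (x : BB K) :
    x ∈ II K ↔ ∀ᶠ n in (Filter.hyperfilter ℕ : Filter ℕ), ev K n x = 0 := Iff.rfl

theorem II_max : (II K).IsMaximal := by
  rw [Ideal.isMaximal_iff]
  constructor
  · intro h
    rw [mem_II] at h
    obtain ⟨n, hn⟩ := h.exists
    rw [map_one] at hn
    exact one_ne_zero hn
  · intro J x hJ hx hxJ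
    have hb : Bd K (fun n => ((x : ∀ n, AlgebraicClosure (K n)) n)⁻¹) := by
      obtain ⟨e, he⟩ := x.2
      refine ⟨e, fun n => ?_⟩
      obtain ⟨L, h1, h2, h3⟩ := he n
      exact ⟨L, h1, h2, L.inv_mem h3⟩
    let y : BB K := ⟨_, hb⟩
    have h1 : x * y - 1 ∈ II K := by
      rw [mem_II]
      rw [mem_II] at hx
      have hx' := Ultrafilter.eventually_not.2 hx
      filter_upwards [hx'] with n hn
      rw [map_sub, map_mul, map_one, sub_eq_zero]
      exact mul_inv_cancel₀ hn
    have h2 : (1 : BB K) = x * y - (x * y - 1) := by ring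
    rw [h2]
    exact J.sub_mem (J.mul_mem_right _ hxJ) (hJ h1)

theorem root_aux (n : ℕ) (L : IntermediateField (K n) (AlgebraicClosure (K n)))
    [FiniteDimensional (K n) L] (P : Polynomial (AlgebraicClosure (K n))) (hP : P.Monic)
    (hd : P.natDegree ≠ 0) (hL : ∀ i, P.coeff i ∈ L) :
    ∃ (x : AlgebraicClosure (K n)) (L' : IntermediateField (K n) (AlgebraicClosure (K n))),
      FiniteDimensional (K n) L' ∧ Module.finrank (K n) L' ≤ Module.finrank (K n) L * P.natDegree ∧
      x ∈ L' ∧ P.eval x = 0 := by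
  have hdeg : P.degree ≠ 0 := by
    intro h
    exact hd (Polynomial.natDegree_eq_of_degree_eq_some h)
  obtain ⟨x, hx⟩ := IsAlgClosed.exists_root P hdeg
  have hlift : P ∈ Polynomial.lifts (algebraMap L (AlgebraicClosure (K n))) := by
    rw [Polynomial.lifts_iff_coeff_lifts]
    intro i
    exact ⟨⟨P.coeff i, hL i⟩, rfl⟩
  obtain ⟨q, hq, hqd, hqm⟩ := Polynomial.lifts_and_natDegree_eq_and_monic hlift hP
  have hx0 : Polynomial.aeval x q = 0 := by
    rw [← Polynomial.eval_map_algebraMap, hq]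
    exact hx
  have hint : IsIntegral L x := ⟨q, hqm, hx0⟩
  let L' : IntermediateField (K n) (AlgebraicClosure (K n)) :=
    IntermediateField.restrictScalars (K n) (IntermediateField.adjoin L {x})
  have hfd1 : FiniteDimensional L (IntermediateField.adjoin L {x}) :=
    IntermediateField.adjoin.finiteDimensional hint
  have hfd : FiniteDimensional (K n) (IntermediateField.adjoin L {x}) :=
    FiniteDimensional.trans (K n) L _
  refine ⟨x, L', hfd, ?_, ?_, hx⟩
  · have h1 : Module.finrank (K n) L * Module.finrank L (IntermediateField.adjoin L {x}) =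
        Module.finrank (K n) (IntermediateField.adjoin L {x}) := Module.finrank_mul_finrank _ _ _
    have h2 : Module.finrank L (IntermediateField.adjoin L {x}) ≤ P.natDegree := by
      rw [IntermediateField.adjoin.finrank hint, ← hqd]
      exact Polynomial.natDegree_le_of_dvd (minpoly.dvd L x hx0) hqm.ne_zero
    show Module.finrank (K n) (IntermediateField.adjoin L {x}) ≤ _
    rw [← h1]
    exact Nat.mul_le_mul le_rfl h2
  · exact IntermediateField.mem_adjoin_simple_self L x

theorem exists_Q (hchar : ∀ n, n ≤ ringChar (K n)) :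
    ∃ (Q : Type) (_ : Field Q) (_ : IsAlgClosed Q) (_ : CharZero Q) (π : BB K →+* Q),
      Function.Surjective π ∧
      ∀ x, π x = 0 ↔ ∀ᶠ n in (Filter.hyperfilter ℕ : Filter ℕ), ev K n x = 0 := by
  have : (II K).IsMaximal := II_max K
  let _ : Field (BB K ⧸ II K) := Ideal.Quotient.field (II K)
  let π : BB K →+* BB K ⧸ II K := Ideal.Quotient.mk (II K)
  have hs : Function.Surjective π := Ideal.Quotient.mk_surjective
  have hk : ∀ x, π x = 0 ↔ ∀ᶠ n in (Filter.hyperfilter ℕ : Filter ℕ), ev K n x = 0 := by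
    intro x
    exact Ideal.Quotient.eq_zero_iff_mem.trans (mem_II K x)
  refine ⟨BB K ⧸ II K, inferInstance, ?_, ?_, π, hs, hk⟩
  · apply IsAlgClosed.of_exists_root
    intro p hp hirr
    have hlift : p ∈ Polynomial.lifts π := by
      rw [Polynomial.lifts_iff_coeff_lifts]
      intro i
      exact hs _
    obtain ⟨q, hq, hqd, hqm⟩ := Polynomial.lifts_and_natDegree_eq_and_monic hlift hp
    have hd : q.natDegree ≠ 0 := by
      rw [hqd]
      exact (Polynomial.natDegree_pos_iff_degree_pos.2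
        (Polynomial.degree_pos_of_irreducible hirr)).ne'
    obtain ⟨e, he⟩ := Bd.fam (K := K) (Finset.range (q.natDegree + 1))
      (fun i => ((q.coeff i : BB K) : ∀ n, AlgebraicClosure (K n))) (fun i => (q.coeff i).2)
    have hroot : ∀ n, ∃ (x : AlgebraicClosure (K n))
        (L' : IntermediateField (K n) (AlgebraicClosure (K n))),
        FiniteDimensional (K n) L' ∧ Module.finrank (K n) L' ≤ e * q.natDegree ∧
        x ∈ L' ∧ (q.map (ev K n)).eval x = 0 := by
      intro n
      obtain ⟨L, h1, h2, h3⟩ := he n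
      have hm : (q.map (ev K n)).Monic := hqm.map _
      have hdn : (q.map (ev K n)).natDegree = q.natDegree := hqm.natDegree_map _
      obtain ⟨x, L', g1, g2, g3, g4⟩ := root_aux K n L (q.map (ev K n)) hm (by rw [hdn]; exact hd)
        (fun i => by
          rw [Polynomial.coeff_map]
          by_cases hi : i ≤ q.natDegree
          · exact h3 i (Finset.mem_range.2 (by omega))
          · rw [Polynomial.coeff_eq_zero_of_natDegree_lt (by omega), map_zero]
            exact L.zero_mem)
      refine ⟨x, L', g1, g2.trans ?_, g3, g4⟩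
      rw [hdn]
      exact Nat.mul_le_mul h2 le_rfl
    choose x L' g1 g2 g3 g4 using hroot
    let X : BB K := ⟨x, ⟨e * q.natDegree, fun n => ⟨L' n, g1 n, g2 n, g3 n⟩⟩⟩
    refine ⟨π X, ?_⟩
    rw [← hq, Polynomial.eval_map, Polynomial.eval₂_hom, hk]
    refine Filter.Eventually.of_forall fun n => ?_
    have h5 := g4 n
    rw [Polynomial.eval_map] at h5
    rw [← Polynomial.eval₂_hom (ev K n) X]
    exact h5
  · refine charZero_of_inj_zero fun m hm => ?_
    by_contra hne
    have h1 : π (m : BB K) = 0 := by rw [map_natCast]; exact hm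
    rw [hk] at h1
    have h2 : ∀ᶠ n in (Filter.hyperfilter ℕ : Filter ℕ), m < n :=
      Nat.hyperfilter_le_atTop (Filter.eventually_gt_atTop m)
    obtain ⟨n, hn1, hn2⟩ := (h1.and h2).exists
    rw [map_natCast] at hn1
    have h3 : ((m : ℕ) : K n) = 0 := by
      apply (algebraMap (K n) (AlgebraicClosure (K n))).injective
      rw [map_natCast, map_zero]
      exact hn1
    have h4 := Nat.le_of_dvd (Nat.pos_of_ne_zero hne) ((ringChar.spec (K n) m).1 h3)
    exact absurd (hchar n) (by omega)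

end

/-! ### Maps of systems -/

section maps

variable {k : ℕ} {B R : Type} [CommRing B] [CommRing R]

/-- the defect of the incidence -/
noncomputable def dfc (A : ADG k B) (p l : Fin k → B) (i : Fin k) : B :=
  p i + l i - eval (fun v : Fin i × Bool => (if v.2 then l else p) (v.1.castLE i.isLt.le)) (A.f i)

theorem inc_iff (A : ADG k B) (p l : Fin k → B) :
    A.Inc p l ↔ ∀ i : Fin k, 0 < (i : ℕ) → dfc A p l i = 0 := by
  unfold ADG.Inc dfc
  refine forall_congr' fun i => forall_congr' fun _ => ?_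
  rw [sub_eq_zero]

theorem dfc_map (A : ADG k B) (φ : B →+* R) (p l : Fin k → B) (i : Fin k) :
    dfc (A.map φ) (fun j => φ (p j)) (fun j => φ (l j)) i = φ (dfc A p l i) := by
  unfold dfc ADG.map
  rw [map_sub, map_add]
  congr 1
  show eval _ (MvPolynomial.map φ (A.f i)) = _
  have h := MvPolynomial.eval₂_comp_left φ (RingHom.id B)
    (fun v : Fin i × Bool => (if v.2 then l else p) (v.1.castLE i.isLt.le)) (A.f i)
  rw [RingHom.comp_id] at h
  rw [MvPolynomial.eval_map]
  refine Eq.trans ?_ h.symm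
  congr 1
  funext v
  rcases v with ⟨v, b⟩
  cases b <;> rfl

theorem inc_map (A : ADG k B) (φ : B →+* R) (p l : Fin k → B) :
    (A.map φ).Inc (fun j => φ (p j)) (fun j => φ (l j)) ↔
      ∀ i : Fin k, 0 < (i : ℕ) → φ (dfc A p l i) = 0 := by
  rw [inc_iff]
  refine forall_congr' fun i => forall_congr' fun _ => ?_
  rw [dfc_map]

/-- maps of vertices -/
def vm (φ : B → R) : (Fin k → B) ⊕ (Fin k → B) → (Fin k → R) ⊕ (Fin k → R) :=
  Sum.map (fun p j => φ (p j)) (fun p j => φ (p j))

/-- the coordinates of a vertex -/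
def cd (x : (Fin k → B) ⊕ (Fin k → B)) : Fin k → B := Sum.elim id id x

theorem adj_map_of (A : ADG k B) (φ : B →+* R) (hφ : Function.Injective φ)
    (x y : (Fin k → B) ⊕ (Fin k → B)) (h : (A.map φ).graph.Adj (vm φ x) (vm φ y)) :
    A.graph.Adj x y := by
  have key : ∀ p l : Fin k → B, (A.map φ).Inc (fun j => φ (p j)) (fun j => φ (l j)) →
      A.Inc p l := by
    intro p l h
    rw [inc_map] at h
    rw [inc_iff]
    intro i hi
    exact (map_eq_zero_iff φ hφ).1 (h i hi)
  rcases x with p | l <;> rcases y with p' | l'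
  · exact h
  · exact key _ _ h
  · exact key _ _ h
  · exact h

end maps

section

variable {K : ℕ → Type} [∀ n, Field (K n)] {k : ℕ}

theorem inc_ev {Q : Type} [Field Q] (π : BB K →+* Q)
    (hπ : ∀ x, π x = 0 ↔ ∀ᶠ n in (Filter.hyperfilter ℕ : Filter ℕ), ev K n x = 0)
    (A : ADG k (BB K)) (p l : Fin k → BB K)
    (h : (A.map π).Inc (fun j => π (p j)) (fun j => π (l j))) :
    ∀ᶠ n in (Filter.hyperfilter ℕ : Filter ℕ),
      (A.map (ev K n)).Inc (fun j => ev K n (p j)) (fun j => ev K n (l j)) := by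
  rw [inc_map] at h
  have h1 : ∀ᶠ n in (Filter.hyperfilter ℕ : Filter ℕ), ∀ i : Fin k, 0 < (i : ℕ) →
      ev K n (dfc A p l i) = 0 := by
    rw [Filter.eventually_all]
    intro i
    by_cases hi : 0 < (i : ℕ)
    · have h2 := (hπ _).1 (h i hi)
      filter_upwards [h2] with n hn _
      exact hn
    · exact Filter.Eventually.of_forall fun n h3 => absurd h3 hi
  filter_upwards [h1] with n hn
  rw [inc_map]
  exact hn

theorem adj_ev {Q : Type} [Field Q] (π : BB K →+* Q)
    (hπ : ∀ x, π x = 0 ↔ ∀ᶠ n in (Filter.hyperfilter ℕ : Filter ℕ), ev K n x = 0)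
    (A : ADG k (BB K)) (x y : (Fin k → BB K) ⊕ (Fin k → BB K))
    (h : (A.map π).graph.Adj (vm π x) (vm π y)) :
    ∀ᶠ n in (Filter.hyperfilter ℕ : Filter ℕ),
      (A.map (ev K n)).graph.Adj (vm (ev K n) x) (vm (ev K n) y) := by
  rcases x with p | l <;> rcases y with p' | l'
  · exact h.elim
  · exact inc_ev π hπ A p l' h
  · exact inc_ev π hπ A p' l h
  · exact h.elim

theorem ne_ev {Q : Type} [Field Q] (π : BB K →+* Q)
    (hπ : ∀ x, π x = 0 ↔ ∀ᶠ n in (Filter.hyperfilter ℕ : Filter ℕ), ev K n x = 0)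
    (x y : (Fin k → BB K) ⊕ (Fin k → BB K)) (h : vm π x ≠ vm π y) :
    ∀ᶠ n in (Filter.hyperfilter ℕ : Filter ℕ), vm (ev K n) x ≠ vm (ev K n) y := by
  have key : ∀ p l : Fin k → BB K, (fun j => π (p j)) ≠ (fun j => π (l j)) →
      ∀ᶠ n in (Filter.hyperfilter ℕ : Filter ℕ),
        (fun j => ev K n (p j)) ≠ (fun j => ev K n (l j)) := by
    intro p l h
    obtain ⟨j, hj⟩ := Function.ne_iff.1 h
    have h1 : ¬ ∀ᶠ n in (Filter.hyperfilter ℕ : Filter ℕ), ev K n (p j - l j) = 0 := by
      rw [← hπ, map_sub, sub_eq_zero]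
      exact hj
    have h2 := Ultrafilter.eventually_not.2 h1
    filter_upwards [h2] with n hn heq
    apply hn
    rw [map_sub, sub_eq_zero]
    exact congrFun heq j
  rcases x with p | l <;> rcases y with p' | l'
  · have h1 : (fun j => π (p j)) ≠ (fun j => π (p' j)) := fun h2 => h (congrArg Sum.inl h2)
    filter_upwards [key _ _ h1] with n hn h2
    exact hn (Sum.inl.inj h2)
  · exact Filter.Eventually.of_forall fun n h2 => by cases h2
  · exact Filter.Eventually.of_forall fun n h2 => by cases h2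
  · have h1 : (fun j => π (l j)) ≠ (fun j => π (l' j)) := fun h2 => h (congrArg Sum.inr h2)
    filter_upwards [key _ _ h1] with n hn h2
    exact hn (Sum.inr.inj h2)

/-- polynomials of bounded degree -/
theorem exists_poly {σ : Type} [Finite σ] (D : ℕ) (P : ∀ n, MvPolynomial σ (K n))
    (hP : ∀ n, (P n).totalDegree ≤ D) :
    ∃ p : MvPolynomial σ (BB K), ∀ n, MvPolynomial.map (ev K n) p =
      MvPolynomial.map (algebraMap (K n) (AlgebraicClosure (K n))) (P n) := by
  classical
  have hfin := Finsupp.finite_of_degree_le (σ := σ) D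
  let c : (σ →₀ ℕ) → BB K := fun m =>
    ⟨fun n => algebraMap (K n) (AlgebraicClosure (K n)) ((P n).coeff m), Bd.const fun n => ⟨_, rfl⟩⟩
  refine ⟨∑ m ∈ hfin.toFinset, monomial m (c m), fun n => ?_⟩
  rw [map_sum]
  ext m
  rw [coeff_sum, coeff_map]
  simp only [map_monomial, coeff_monomial]
  rw [Finset.sum_ite_eq']
  split_ifs with h
  · rfl
  · have h1 : (P n).coeff m = 0 := by
      apply coeff_eq_zero_of_totalDegree_lt
      refine lt_of_le_of_lt (hP n) ?_
      by_contra h2
      push Not at h2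
      apply h
      rw [Set.Finite.mem_toFinset]
      exact h2
    rw [h1, map_zero]

theorem exists_adg (D : ℕ) (A : ∀ n, ADG k (K n)) (hA : ∀ n i, ((A n).f i).totalDegree ≤ D) :
    ∃ Ab : ADG k (BB K), ∀ n, Ab.map (ev K n) =
      (A n).map (algebraMap (K n) (AlgebraicClosure (K n))) := by
  have h := fun i : Fin k => exists_poly (K := K) D (fun n => (A n).f i) (fun n => hA n i)
  choose f hf using h
  refine ⟨⟨f⟩, fun n => ?_⟩
  unfold ADG.map
  congr 1
  funext i
  exact hf i n

theorem main (hC : LClosed) (hk : 2 ≤ k) (h2 : k ≠ 2) (h3 : k ≠ 3) (h5 : k ≠ 5) (D : ℕ)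
    (hchar : ∀ n, n ≤ ringChar (K n)) (A : ∀ n, ADG k (K n))
    (hA : ∀ n i, ((A n).f i).totalDegree ≤ D) :
    ∃ (n : ℕ) (L : IntermediateField (K n) (AlgebraicClosure (K n))),
      FiniteDimensional (K n) L ∧ Module.finrank (K n) L ≤ n ∧ ∃ j : ℕ, 2 ≤ j ∧ j ≤ k ∧
        (SimpleGraph.cycleGraph (2 * j)).IsContained
          ((A n).map (algebraMap (K n) L)).graph := by
  classical
  obtain ⟨Q, _, _, _, π, hs, hπ⟩ := exists_Q K hchar
  obtain ⟨Ab, hAb⟩ := exists_adg D A hA
  obtain ⟨j, hj2, hjk, ⟨φ⟩⟩ := hC Q k hk h2 h3 h5 (Ab.map π)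
  choose g hg using hs
  let ψ : Fin (2 * j) → (Fin k → BB K) ⊕ (Fin k → BB K) := fun v => vm g (φ v)
  have hψ : ∀ v, vm π (ψ v) = φ v := by
    intro v
    show vm π (vm g (φ v)) = φ v
    rcases φ v with p | l
    · exact congrArg Sum.inl (funext fun j => hg _)
    · exact congrArg Sum.inr (funext fun j => hg _)
  have e1 : ∀ᶠ n in (Filter.hyperfilter ℕ : Filter ℕ), ∀ u v : Fin (2 * j),
      (SimpleGraph.cycleGraph (2 * j)).Adj u v →
        (Ab.map (ev K n)).graph.Adj (vm (ev K n) (ψ u)) (vm (ev K n) (ψ v)) := by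
    rw [Filter.eventually_all]
    intro u
    rw [Filter.eventually_all]
    intro v
    by_cases huv : (SimpleGraph.cycleGraph (2 * j)).Adj u v
    · have h1 : (Ab.map π).graph.Adj (vm π (ψ u)) (vm π (ψ v)) := by
        rw [hψ, hψ]
        exact φ.toHom.map_adj huv
      filter_upwards [adj_ev π hπ Ab _ _ h1] with n hn _
      exact hn
    · exact Filter.Eventually.of_forall fun n h3 => absurd h3 huv
  have e2 : ∀ᶠ n in (Filter.hyperfilter ℕ : Filter ℕ), ∀ u v : Fin (2 * j), u ≠ v →
        vm (ev K n) (ψ u) ≠ vm (ev K n) (ψ v) := by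
    rw [Filter.eventually_all]
    intro u
    rw [Filter.eventually_all]
    intro v
    by_cases huv : u ≠ v
    · have h1 : vm π (ψ u) ≠ vm π (ψ v) := by
        rw [hψ, hψ]
        exact fun h => huv (φ.injective h)
      filter_upwards [ne_ev π hπ _ _ h1] with n hn _
      exact hn
    · exact Filter.Eventually.of_forall fun n h3 => absurd h3 huv
  obtain ⟨e, he⟩ := Bd.fam (K := K) (Finset.univ : Finset (Fin (2 * j) × Fin k))
    (fun i => ((cd (ψ i.1) i.2 : BB K) : ∀ n, AlgebraicClosure (K n)))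
    (fun i => (cd (ψ i.1) i.2).2)
  have e3 : ∀ᶠ n in (Filter.hyperfilter ℕ : Filter ℕ), e ≤ n :=
    Nat.hyperfilter_le_atTop (Filter.eventually_ge_atTop e)
  obtain ⟨n, ⟨hn1, hn2⟩, hn3⟩ := ((e1.and e2).and e3).exists
  obtain ⟨L, g1, g2, g3⟩ := he n
  refine ⟨n, L, g1, g2.trans hn3, j, hj2, hjk, ?_⟩
  -- the vertices over `L`
  have hw : ∀ v, ∃ w : (Fin k → L) ⊕ (Fin k → L),
      vm (algebraMap L (AlgebraicClosure (K n))) w = vm (ev K n) (ψ v) := by
    intro v
    have h4 : ∀ i, ev K n (cd (ψ v) i) ∈ L := fun i => g3 (v, i) (Finset.mem_univ _)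
    generalize ψ v = x at h4
    rcases x with p | l
    · exact ⟨Sum.inl fun i => ⟨_, h4 i⟩, rfl⟩
    · exact ⟨Sum.inr fun i => ⟨_, h4 i⟩, rfl⟩
  choose w hw using hw
  have hmap : ((A n).map (algebraMap (K n) L)).map (algebraMap L (AlgebraicClosure (K n))) =
      Ab.map (ev K n) := by
    rw [hAb]
    unfold ADG.map
    congr 1
    funext i
    show MvPolynomial.map _ (MvPolynomial.map _ _) = _
    rw [MvPolynomial.map_map]
    rfl
  refine ⟨⟨⟨w, fun {u v} huv => ?_⟩, fun u v huv => ?_⟩⟩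
  · apply adj_map_of _ (algebraMap L (AlgebraicClosure (K n))) (algebraMap L _).injective
    rw [hmap, hw, hw]
    exact hn1 u v huv
  · by_contra hne
    apply hn2 u v hne
    rw [← hw, ← hw]
    exact congrArg _ huv

end

end Fin9

/-- (L9) The conclusion for finite fields. -/
theorem finite : LFinite := by
  intro hC k hk h2 h3 h5 D
  by_contra hcon
  push Not at hcon
  choose K hfield hfin hchar A hA hno using hcon
  obtain ⟨n, L, g1, g2, j, hj2, hjk, hj⟩ :=
    Fin9.main (K := K) hC hk h2 h3 h5 D hchar A hA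
  have : Finite L := Module.finite_of_finite (K n)
  exact hj.elim (hno n L inferInstance this inferInstance g2 j hj2 hjk).false

end Pool.Agent.H97F
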