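import Pool.Agent.H97F.Finite

/-!
# The conclusion for finite fields, uniform form
-/

set_option autoImplicit false

namespace Pool.Agent.H97F

open MvPolynomial

namespace Fin9

section

variable {k : ℕ} {R : Type} [CommRing R]

/-- the polynomial `f 0` replaced by `0` -/
noncomputable def cut (A : ADG k R) : ADG k R where
  f i := if 0 < (i : ℕ) then A.f i else 0

theorem cut_inc (A : ADG k R) (p l : Fin k → R) : (cut A).Inc p l ↔ A.Inc p l := by
  unfold ADG.Inc cut
  refine forall_congr' fun i => forall_congr' fun hi => ?_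
  simp only [if_pos hi]

theorem cut_map {S : Type} [CommRing S] (A : ADG k R) (φ : R →+* S) :
    (cut A).map φ = cut (A.map φ) := by
  unfold cut ADG.map
  congr 1
  funext i
  show MvPolynomial.map φ (if 0 < (i : ℕ) then A.f i else 0) =
    if 0 < (i : ℕ) then MvPolynomial.map φ (A.f i) else 0
  split_ifs with h
  · rfl
  · exact map_zero _

theorem cut_graph (A : ADG k R) : (cut A).graph = A.graph := by
  ext x y
  rcases x with p | l <;> rcases y with p' | l'
  · exact Iff.rfl
  · exact cut_inc A p l'
  · exact cut_inc A p' l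
  · exact Iff.rfl

end

section

variable {k : ℕ} {B R : Type} [CommRing B] [CommRing R]

theorem adj_map (A : ADG k B) (φ : B →+* R) (x y : (Fin k → B) ⊕ (Fin k → B))
    (h : A.graph.Adj x y) : (A.map φ).graph.Adj (vm φ x) (vm φ y) := by
  have key : ∀ p l : Fin k → B, A.Inc p l →
      (A.map φ).Inc (fun j => φ (p j)) (fun j => φ (l j)) := by
    intro p l h
    rw [inc_map]
    intro i hi
    rw [(inc_iff A p l).1 h i hi, map_zero]
  rcases x with p | l <;> rcases y with p' | l'
  · exact h
  · exact key _ _ h
  · exact key _ _ h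
  · exact h

omit [CommRing B] [CommRing R] in
theorem vm_injective (φ : B → R) (hφ : Function.Injective φ) :
    Function.Injective (vm (k := k) φ) := by
  refine Function.Injective.sumMap ?_ ?_
  · intro p p' h
    funext j
    exact hφ (congrFun h j)
  · intro p p' h
    funext j
    exact hφ (congrFun h j)

theorem contained_map {V : Type} (G : SimpleGraph V) (A : ADG k B) (φ : B →+* R)
    (hφ : Function.Injective φ) (h : G.IsContained A.graph) : G.IsContained (A.map φ).graph := by
  obtain ⟨f⟩ := h
  exact ⟨⟨⟨fun v => vm φ (f v), fun {u v} huv => adj_map A φ _ _ (f.toHom.map_adj huv)⟩,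
    fun u v huv => f.injective (vm_injective φ hφ huv)⟩⟩

end

end Fin9

/-- The conclusion for finite fields, uniform form: the graphs over all the extensions whose degree
is divisible by `M` contain short cycles. -/
theorem finite2 : LClosed → ∀ k : ℕ, 2 ≤ k → k ≠ 2 → k ≠ 3 → k ≠ 5 → ∀ D : ℕ, ∃ M : ℕ, 0 < M ∧
    ∀ (K : Type) [Field K] [Finite K], M ≤ ringChar K → ∀ A : ADG k K,
      (∀ i : Fin k, 0 < (i : ℕ) → (A.f i).totalDegree ≤ D) →
      ∀ (L : Type) [Field L] [Finite L] [Algebra K L], M ∣ Module.finrank K L →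
        ∃ j : ℕ, 2 ≤ j ∧ j ≤ k ∧
          (SimpleGraph.cycleGraph (2 * j)).IsContained (A.map (algebraMap K L)).graph := by
  intro hC k hk h2 h3 h5 D
  obtain ⟨M₀, hM₀⟩ := finite hC k hk h2 h3 h5 D
  refine ⟨M₀.factorial, Nat.factorial_pos _, fun K _ _ hchar A hA L _ _ _ hdvd => ?_⟩
  obtain ⟨L', _, _, _, hfin, j, hj2, hjk, hj⟩ := hM₀ K ((Nat.self_le_factorial M₀).trans hchar)
    (Fin9.cut A) (fun i => by
      unfold Fin9.cut
      simp only
      split_ifs with hi
      · exact hA i hi
      · rw [totalDegree_zero]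
        exact Nat.zero_le _)
  rw [Fin9.cut_map, Fin9.cut_graph] at hj
  have hfd : Module.Finite K L' := Module.Finite.of_finite
  have hdvd' : Module.finrank K L' ∣ Module.finrank K L :=
    (Nat.dvd_factorial Module.finrank_pos hfin).trans hdvd
  have hfd2 : Module.Finite K L := Module.Finite.of_finite
  obtain ⟨φ⟩ := FiniteField.nonempty_algHom_of_finrank_dvd hdvd'
  refine ⟨j, hj2, hjk, ?_⟩
  have h := Fin9.contained_map _ (A.map (algebraMap K L')) (φ : L' →+* L) φ.toRingHom.injective hj
  have e : (A.map (algebraMap K L')).map (φ : L' →+* L) = A.map (algebraMap K L) := by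
    unfold ADG.map
    congr 1
    funext i
    show MvPolynomial.map _ (MvPolynomial.map _ _) = _
    rw [MvPolynomial.map_map, AlgHom.comp_algebraMap]
  rwa [e] at h

end Pool.Agent.H97F
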