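import Pool.Agent.H97F.Defs

/-!
# Algebraically defined graphs give polynomial flows (L8)
-/

set_option autoImplicit false

namespace Pool.Agent.H97F

namespace GraphPf

open MvPolynomial

variable {K : Type} [Field K] {k : ℕ}

/-- The incidence relation, over an algebra, with a side. -/
def Rel (A : ADG k K) {R : Type} [CommRing R] [Algebra K R] (s : Bool) (x y : Fin k → R) : Prop :=
  ∀ i : Fin k, 0 < (i : ℕ) → x i + y i =
    aeval (fun v : Fin i × Bool => if v.2 = s then x (v.1.castLE i.isLt.le)
      else y (v.1.castLE i.isLt.le)) (A.f i)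

/-- The solution of the incidence relation with given first coordinate. -/
noncomputable def sol (A : ADG k K) {R : Type} [CommRing R] [Algebra K R] (s : Bool) (x0 : R)
    (y : Fin k → R) (i : Fin k) : R :=
  if 0 < (i : ℕ) then
    aeval (fun v : Fin i × Bool => if v.2 = s then sol A s x0 y (v.1.castLE i.isLt.le)
      else y (v.1.castLE i.isLt.le)) (A.f i) - y i
  else x0
termination_by (i : ℕ)
decreasing_by exact v.1.isLt

theorem sol_pos (A : ADG k K) {R : Type} [CommRing R] [Algebra K R] (s : Bool) (x0 : R)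
    (y : Fin k → R) (i : Fin k) (h : 0 < (i : ℕ)) :
    sol A s x0 y i = aeval (fun v : Fin i × Bool => if v.2 = s then
      sol A s x0 y (v.1.castLE i.isLt.le) else y (v.1.castLE i.isLt.le)) (A.f i) - y i := by
  rw [sol, if_pos h]

theorem sol_zero (A : ADG k K) {R : Type} [CommRing R] [Algebra K R] (s : Bool) (x0 : R)
    (y : Fin k → R) (i : Fin k) (h : (i : ℕ) = 0) :
    sol A s x0 y i = x0 := by
  rw [sol, if_neg (by omega)]

theorem sol_map (A : ADG k K) {R R' : Type} [CommRing R] [Algebra K R] [CommRing R']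
    [Algebra K R'] (φ : R →ₐ[K] R') (s : Bool) (x0 : R) (y : Fin k → R) :
    ∀ (n : ℕ) (i : Fin k), (i : ℕ) = n →
      φ (sol A s x0 y i) = sol A s (φ x0) (fun j => φ (y j)) i := by
  intro n
  induction n using Nat.strong_induction_on with
  | _ n ih =>
    intro i hi
    by_cases h : 0 < (i : ℕ)
    · rw [sol_pos A s x0 y i h, sol_pos A s (φ x0) _ i h, map_sub, comp_aeval_apply]
      congr 2
      congr 1
      funext v
      by_cases hv : v.2 = s
      · rw [if_pos hv, if_pos hv]
        exact ih v.1 (hi ▸ v.1.isLt) _ rfl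
      · rw [if_neg hv, if_neg hv]
    · rw [sol_zero A s x0 y i (by omega), sol_zero A s (φ x0) _ i (by omega)]

theorem sol_rel (A : ADG k K) {R : Type} [CommRing R] [Algebra K R] (s : Bool) (x0 : R)
    (y : Fin k → R) : Rel A s (sol A s x0 y) y := by
  intro i hi
  conv_lhs => rw [sol_pos A s x0 y i hi]
  ring

theorem rel_symm (A : ADG k K) {R : Type} [CommRing R] [Algebra K R] {s s' : Bool}
    {x y : Fin k → R} (hs : s' = !s) (h : Rel A s x y) : Rel A s' y x := by
  intro i hi
  rw [add_comm, h i hi]
  congr 2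
  funext v
  subst hs
  rcases v with ⟨a, b⟩
  cases b <;> cases s <;> simp

theorem sol_unique (A : ADG k K) {R : Type} [CommRing R] [Algebra K R] {s : Bool}
    {x y : Fin k → R} (h : Rel A s x y) {x0 : R} (h0 : ∀ i : Fin k, (i : ℕ) = 0 → x i = x0) :
    x = sol A s x0 y := by
  suffices hh : ∀ (n : ℕ) (i : Fin k), (i : ℕ) = n → x i = sol A s x0 y i from
    funext fun i => hh i i rfl
  intro n
  induction n using Nat.strong_induction_on with
  | _ n ih =>
    intro i hi
    by_cases hp : 0 < (i : ℕ)
    · rw [sol_pos A s x0 y i hp]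
      have h1 := h i hp
      rw [eq_sub_iff_add_eq, h1]
      congr 2
      funext v
      by_cases hv : v.2 = s
      · rw [if_pos hv, if_pos hv]
        exact ih v.1 (hi ▸ v.1.isLt) _ rfl
      · rw [if_neg hv, if_neg hv]
    · rw [sol_zero A s x0 y i (by omega)]
      exact h0 i (by omega)

/-- the point of a flag -/
def pt {R : Type} (f : Fin (k + 1) → R) : Fin k → R := fun j => f j.succ

/-- the line of a flag -/
noncomputable def ln (A : ADG k K) {R : Type} [CommRing R] [Algebra K R] (f : Fin (k + 1) → R) :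
    Fin k → R := sol A true (f 0) (pt f)

/-- the flows -/
noncomputable def flow (A : ADG k K) (hk : 0 < k) {R : Type} [CommRing R] [Algebra K R]
    (τ : Bool) (t : R) (f : Fin (k + 1) → R) : Fin (k + 1) → R :=
  if τ then Fin.cons (f 0) (sol A false (f (Fin.succ ⟨0, hk⟩) + t) (ln A f))
  else Fin.cons (f 0 + t) (pt f)

theorem flow_map (A : ADG k K) (hk : 0 < k) {R R' : Type} [CommRing R] [Algebra K R] [CommRing R']
    [Algebra K R'] (φ : R →ₐ[K] R') (τ : Bool) (t : R) (f : Fin (k + 1) → R)
    (j : Fin (k + 1)) :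
    φ (flow A hk τ t f j) = flow A hk τ (φ t) (fun i => φ (f i)) j := by
  have hln : (fun j => φ (ln A f j)) = ln A (fun i => φ (f i)) := by
    funext j
    exact sol_map A φ true (f 0) (pt f) j j rfl
  cases τ
  · refine Fin.cases ?_ (fun i => ?_) j
    · simp [flow]
    · simp [flow, pt]
  · refine Fin.cases ?_ (fun i => ?_) j
    · simp [flow]
    · simp only [flow, if_true, Fin.cons_succ]
      rw [sol_map A φ false _ _ i i rfl, hln, map_add]

theorem rel_flag (A : ADG k K) {R : Type} [CommRing R] [Algebra K R] (f : Fin (k + 1) → R) :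
    Rel A true (ln A f) (pt f) := sol_rel A true (f 0) (pt f)

theorem pt_flow_false (A : ADG k K) (hk : 0 < k) {R : Type} [CommRing R] [Algebra K R] (t : R)
    (f : Fin (k + 1) → R) : pt (flow A hk false t f) = pt f := by
  funext j
  simp [flow, pt]

theorem pt_flow_true (A : ADG k K) (hk : 0 < k) {R : Type} [CommRing R] [Algebra K R] (t : R)
    (f : Fin (k + 1) → R) :
    pt (flow A hk true t f) = sol A false (f (Fin.succ ⟨0, hk⟩) + t) (ln A f) := by
  funext j
  simp [flow, pt]

theorem ln_zero (A : ADG k K) {R : Type} [CommRing R] [Algebra K R] (f : Fin (k + 1) → R)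
    (i : Fin k) (hi : (i : ℕ) = 0) : ln A f i = f 0 := sol_zero A _ _ _ i hi

theorem ln_flow_true (A : ADG k K) (hk : 0 < k) {R : Type} [CommRing R] [Algebra K R] (t : R)
    (f : Fin (k + 1) → R) : ln A (flow A hk true t f) = ln A f := by
  have h1 : Rel A true (ln A f) (pt (flow A hk true t f)) := by
    rw [pt_flow_true]
    exact rel_symm A rfl (sol_rel A false _ _)
  have h2 := sol_unique A h1 (x0 := f 0) (fun i hi => ln_zero A f i hi)
  rw [h2]
  show sol A true (flow A hk true t f 0) (pt (flow A hk true t f)) = _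
  congr 1

theorem flow_of_ln (A : ADG k K) (hk : 0 < k) {R : Type} [CommRing R] [Algebra K R]
    (f g : Fin (k + 1) → R) (h : ln A f = ln A g) :
    g = flow A hk true (g (Fin.succ ⟨0, hk⟩) - f (Fin.succ ⟨0, hk⟩)) f := by
  have h1 : Rel A false (pt g) (ln A g) := rel_symm A rfl (rel_flag A g)
  have h2 := sol_unique A h1 (x0 := g (Fin.succ ⟨0, hk⟩)) (fun i hi => by
    have : i = ⟨0, hk⟩ := Fin.ext hi
    subst this
    rfl)
  have h0 : g 0 = f 0 := by
    have h3 := ln_zero A f ⟨0, hk⟩ rfl
    have h4 := ln_zero A g ⟨0, hk⟩ rfl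
    rw [← h3, ← h4, h]
  funext j
  refine Fin.cases ?_ (fun i => ?_) j
  · simp [flow, h0]
  · have h5 := congrFun h2 i
    simp only [flow, if_true, Fin.cons_succ, add_sub_cancel]
    rw [h]
    exact h5

theorem flow_of_pt (A : ADG k K) (hk : 0 < k) {R : Type} [CommRing R] [Algebra K R]
    (f g : Fin (k + 1) → R) (h : pt f = pt g) :
    g = flow A hk false (g 0 - f 0) f := by
  funext j
  refine Fin.cases ?_ (fun i => ?_) j
  · simp [flow]
  · have h5 := congrFun h i
    simp only [pt] at h5
    simp [flow, pt, h5]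

theorem flow_zero (A : ADG k K) (hk : 0 < k) {R : Type} [CommRing R] [Algebra K R] (τ : Bool)
    (f : Fin (k + 1) → R) : flow A hk τ 0 f = f := by
  cases τ
  · have := flow_of_pt A hk f f rfl
    rw [sub_self] at this
    exact this.symm
  · have := flow_of_ln A hk f f rfl
    rw [sub_self] at this
    exact this.symm

theorem flow_one (A : ADG k K) (hk : 0 < k) {R : Type} [CommRing R] [Algebra K R] (t : R)
    (f : Fin (k + 1) → R) :
    flow A hk true t f (Fin.succ ⟨0, hk⟩) = f (Fin.succ ⟨0, hk⟩) + t := by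
  simp only [flow, if_true, Fin.cons_succ]
  exact sol_zero A _ _ _ _ rfl

theorem flow_add (A : ADG k K) (hk : 0 < k) {R : Type} [CommRing R] [Algebra K R] (τ : Bool)
    (s t : R) (f : Fin (k + 1) → R) :
    flow A hk τ (s + t) f = flow A hk τ t (flow A hk τ s f) := by
  cases τ
  · have := flow_of_pt A hk (flow A hk false s f) (flow A hk false (s + t) f) (by
      rw [pt_flow_false, pt_flow_false])
    rw [this]
    congr 1
    simp [flow]
  · have := flow_of_ln A hk (flow A hk true s f) (flow A hk true (s + t) f) (by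
      rw [ln_flow_true, ln_flow_true])
    rw [this, flow_one, flow_one]
    congr 1
    ring

/-- the polynomials of the flows -/
noncomputable def flp (A : ADG k K) (hk : 0 < k) (τ : Bool) (j : Fin (k + 1)) :
    MvPolynomial (Option (Fin (k + 1))) K :=
  flow A hk τ (X none : MvPolynomial (Option (Fin (k + 1))) K) (fun i => X (some i)) j

theorem actR_flp (A : ADG k K) (hk : 0 < k) {R : Type} [CommRing R] [Algebra K R] (τ : Bool)
    (t : R) (f : Fin (k + 1) → R) : actR (flp A hk) τ t f = flow A hk τ t f := by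
  funext j
  unfold actR flp
  rw [flow_map A hk (aeval (fun o : Option (Fin (k + 1)) => o.elim t f)) τ]
  simp

/-- the system of flows of an algebraically defined graph -/
noncomputable def sys (A : ADG k K) (hk : 0 < k) : Sys K (k + 1) where
  fl := flp A hk
  co := fun τ => if τ then Fin.succ ⟨0, hk⟩ else 0
  zero := by
    intro R _ _ τ f
    rw [actR_flp, flow_zero]
  add := by
    intro R _ _ τ s t f
    rw [actR_flp, actR_flp, actR_flp, flow_add]
  same := by
    intro R _ _ τ t f
    rw [actR_flp]
    cases τ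
    · simp [flow]
    · simp only [if_true]
      exact flow_one A hk t f
  other := by
    intro R _ _ τ t f
    rw [actR_flp]
    cases τ
    · exact congrFun (pt_flow_false A hk t f) ⟨0, hk⟩
    · simp [flow]

theorem sys_act (A : ADG k K) (hk : 0 < k) {R : Type} [CommRing R] [Algebra K R] (τ : Bool)
    (t : R) (f : Fin (k + 1) → R) : (sys A hk).act τ t f = flow A hk τ t f :=
  actR_flp A hk τ t f

theorem isAct (A : ADG k K) (hk : 0 < k) :
    IsAct (fun (τ : Bool) (t : K) (f : Fin (k + 1) → K) => (sys A hk).act τ t f) where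
  zero := fun τ f => (sys A hk).zero K τ f
  add := fun τ s t f => (sys A hk).add K τ s t f
  free := by
    intro τ t f h
    have h1 := (sys A hk).same K τ t f
    have h2 : actR (sys A hk).fl τ t f = f := h
    rw [h2] at h1
    have : f ((sys A hk).co τ) + 0 = f ((sys A hk).co τ) + t := by rw [add_zero]; exact h1
    exact (add_left_cancel this).symm

theorem inc_iff (A : ADG k K) (p l : Fin k → K) : A.Inc p l ↔ Rel A true l p := by
  unfold ADG.Inc Rel
  refine forall_congr' fun i => forall_congr' fun _ => ?_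
  rw [add_comm, ← MvPolynomial.coe_aeval_eq_eval]
  have : (fun v : Fin i × Bool => (if v.2 then l else p) (v.1.castLE i.isLt.le)) =
      (fun v : Fin i × Bool => if v.2 = true then l (v.1.castLE i.isLt.le)
      else p (v.1.castLE i.isLt.le)) := by
    funext v
    split_ifs <;> rfl
  rw [this]
  rfl

/-! ### Words -/

theorem ty_zero (τ : Bool) : ty τ 0 = τ := by simp [ty]

theorem ty_succ (τ : Bool) (n : ℕ) : ty τ (n + 1) = !ty τ n := by
  simp [ty, Nat.bodd_succ]

theorem ty_succ' (τ : Bool) (n : ℕ) : ty τ (n + 1) = ty (!τ) n := by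
  simp [ty, Nat.bodd_succ]

theorem ty_even (τ : Bool) (n : ℕ) : ty τ (2 * n) = τ := by
  induction n with
  | zero => exact ty_zero τ
  | succ n ih =>
    rw [show 2 * (n + 1) = 2 * n + 1 + 1 from by ring, ty_succ, ty_succ, ih, Bool.not_not]

theorem ty_eq_iff (τ : Bool) (i d : ℕ) (h : ty τ (i + d) = ty τ i) : Even d := by
  by_contra hodd
  rw [Nat.not_even_iff_odd] at hodd
  obtain ⟨m, rfl⟩ := hodd
  have h1 : ty τ (i + (2 * m + 1)) = !ty τ i := by
    clear h
    induction m with
    | zero => exact ty_succ τ i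
    | succ m ih =>
      rw [show i + (2 * (m + 1) + 1) = i + (2 * m + 1) + 1 + 1 from by ring, ty_succ, ty_succ, ih,
        Bool.not_not]
  rw [h1] at h
  cases hh : ty τ i <;> simp [hh] at h

theorem wrd_append {G F : Type} (ac : Bool → G → F → F) (u v : List G) :
    ∀ (τ : Bool) (f : F), wrd ac τ (u ++ v) f = wrd ac (ty τ u.length) v (wrd ac τ u f) := by
  induction u with
  | nil => intro τ f; simp [wrd, ty_zero]
  | cons a u ih =>
    intro τ f
    simp only [List.cons_append, wrd, List.length_cons]
    rw [ih, ty_succ']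

theorem wrd_take_succ {G F : Type} (ac : Bool → G → F → F) (w : List G) (τ : Bool) (f : F)
    (i : ℕ) (hi : i < w.length) :
    wrd ac τ (w.take (i + 1)) f = ac (ty τ i) w[i] (wrd ac τ (w.take i) f) := by
  rw [List.take_add_one, List.getElem?_eq_getElem hi, Option.toList_some, wrd_append,
    List.length_take, min_eq_left hi.le]
  rfl

/-! ### The cycle -/

/-- Two vertices shared by consecutive flags. -/
noncomputable def vert (A : ADG k K) (σ : Bool) (f : Fin (k + 1) → K) :
    (Fin k → K) ⊕ (Fin k → K) :=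
  if σ then Sum.inr (ln A f) else Sum.inl (pt f)

theorem vert_flow (A : ADG k K) (hk : 0 < k) (σ : Bool) (t : K) (f : Fin (k + 1) → K) :
    vert A σ (flow A hk σ t f) = vert A σ f := by
  cases σ
  · simp [vert, pt_flow_false]
  · simp [vert, ln_flow_true]

theorem flow_of_vert (A : ADG k K) (hk : 0 < k) (σ : Bool) (f g : Fin (k + 1) → K)
    (h : vert A σ f = vert A σ g) : ∃ t, g = flow A hk σ t f := by
  cases σ
  · simp only [vert, Bool.false_eq_true, if_false, Sum.inl.injEq] at h
    exact ⟨_, flow_of_pt A hk f g h⟩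
  · simp only [vert, if_true, Sum.inr.injEq] at h
    exact ⟨_, flow_of_ln A hk f g h⟩

theorem vert_adj (A : ADG k K) (σ : Bool) (f : Fin (k + 1) → K) :
    A.graph.Adj (vert A σ f) (vert A (!σ) f) := by
  have h : A.Inc (pt f) (ln A f) := (inc_iff A _ _).2 (rel_flag A f)
  cases σ
  · simpa [vert, ADG.graph] using h
  · simpa [vert, ADG.graph] using h

theorem vert_ne (A : ADG k K) (σ σ' : Bool) (f g : Fin (k + 1) → K)
    (h : vert A σ f = vert A σ' g) : σ = σ' := by
  cases σ <;> cases σ' <;> simp [vert] at h ⊢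

/-- Uniqueness of words, for the even numbers. -/
def Uniq : Prop :=
  ∀ (G F : Type) [AddCommGroup G] (ac : Bool → G → F → F), IsAct ac → ∀ n : ℕ,
    NoClosed ac (2 * n) →
    ∀ (τ σ : Bool) (u v : List G) (f : F), NZ u → NZ v → u.length + v.length ≤ 2 * n + 1 →
      wrd ac τ u f = wrd ac σ v f → u = v ∧ (u = [] ∨ τ = σ)

theorem contained_of_closed (hu : Uniq) (A : ADG k K) (hk : 0 < k) (j : ℕ) (hj : 1 ≤ j)
    (hmin : NoClosed (fun (τ : Bool) (t : K) (f : Fin (k + 1) → K) => (sys A hk).act τ t f)
      (2 * (j - 1)))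
    (τ : Bool) (w : List K) (f : Fin (k + 1) → K) (hw : w.length = 2 * j) (hnz : NZ w)
    (hc : wrd (fun (τ : Bool) (t : K) (f : Fin (k + 1) → K) => (sys A hk).act τ t f) τ w f = f) :
    2 ≤ j ∧ (SimpleGraph.cycleGraph (2 * j)).IsContained A.graph := by
  set ac : Bool → K → (Fin (k + 1) → K) → (Fin (k + 1) → K) :=
    fun (τ : Bool) (t : K) (f : Fin (k + 1) → K) => (sys A hk).act τ t f with hac
  have hacf : ∀ τ t f, ac τ t f = flow A hk τ t f := fun τ t f => sys_act A hk τ t f
  have hIs : IsAct ac := isAct A hk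
  have hj2 : 2 ≤ j := by
    by_contra hlt
    have hj1 : j = 1 := by omega
    subst hj1
    match w, hw with
    | [a, b], _ =>
      have h1 := (sys A hk).other K (!τ) b (ac τ a f)
      have h2 := (sys A hk).same K τ a f
      rw [Bool.not_not] at h1
      have h3 : actR (sys A hk).fl (!τ) b (ac τ a f) = f := hc
      rw [h3] at h1
      have h4 : ac τ a f ((sys A hk).co τ) = f ((sys A hk).co τ) + a := h2
      rw [h4] at h1
      have h5 : a = 0 := by
        have : f ((sys A hk).co τ) + 0 = f ((sys A hk).co τ) + a := by rw [add_zero]; exact h1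
        exact (add_left_cancel this).symm
      exact hnz a (by simp) h5
  refine ⟨hj2, ?_⟩
  -- the flags
  let Fl : ℕ → (Fin (k + 1) → K) := fun i => wrd ac τ (w.take i) f
  have hFl0 : Fl 0 = f := by simp [Fl, wrd]
  have hFlN : Fl (2 * j) = f := by
    simp only [Fl]
    rw [← hw, List.take_length]
    exact hc
  have hstep : ∀ i, i < 2 * j → ∃ t, Fl (i + 1) = ac (ty τ i) t (Fl i) := by
    intro i hi
    exact ⟨_, wrd_take_succ ac w τ f i (by omega)⟩
  let V : ℕ → (Fin k → K) ⊕ (Fin k → K) := fun i => vert A (ty τ i) (Fl i)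
  have hV : ∀ i, i < 2 * j → V i = vert A (ty τ i) (Fl (i + 1)) := by
    intro i hi
    obtain ⟨t, ht⟩ := hstep i hi
    rw [ht, hacf, vert_flow]
  have hVadj : ∀ i, i < 2 * j → A.graph.Adj (V i) (V (i + 1)) := by
    intro i hi
    rw [hV i hi]
    simp only [V]
    rw [ty_succ]
    exact vert_adj A _ _
  have hVper : V (2 * j) = V 0 := by
    simp only [V]
    rw [hFlN, hFl0, ty_even, ty_zero]
  have hVinj : ∀ i i', i < i' → i' < 2 * j → V i ≠ V i' := by
    intro i i' hii hi' heq
    have hty : ty τ i = ty τ i' := vert_ne A _ _ _ _ heq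
    obtain ⟨d, rfl⟩ := Nat.exists_eq_add_of_lt hii
    have hev : Even (d + 1) := ty_eq_iff τ i (d + 1) hty.symm
    have h1 : vert A (ty τ i) (Fl (i + 1)) = vert A (ty τ i) (Fl (i + d + 1)) := by
      rw [← hV i (by omega)]
      rw [heq]
      simp only [V]
      rw [← hty]
    obtain ⟨s, hs⟩ := flow_of_vert A hk _ _ _ h1
    rw [← hacf] at hs
    -- the word between
    have hword : Fl (i + d + 1) = wrd ac (ty τ (i + 1)) ((w.drop (i + 1)).take d) (Fl (i + 1)) := by
      simp only [Fl]
      rw [show i + d + 1 = (i + 1) + d from by ring, List.take_add, wrd_append, List.length_take,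
        min_eq_left (by omega)]
    have hnzu : NZ ((w.drop (i + 1)).take d) := fun x hx =>
      hnz x (List.mem_of_mem_drop (List.mem_of_mem_take hx))
    have hlen : ((w.drop (i + 1)).take d).length = d := by
      rw [List.length_take, List.length_drop, hw, min_eq_left (by omega)]
    have hdodd : 1 ≤ d := by
      rcases Nat.eq_zero_or_pos d with h0 | h0
      · subst h0
        simp at hev
      · exact h0
    have hdlt : d + 1 ≤ 2 * (j - 1) := by
      obtain ⟨e, he⟩ := hev
      omega
    by_cases hs0 : s = 0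
    · subst hs0
      rw [hIs.zero] at hs
      have := hu K _ ac hIs (j - 1) hmin (ty τ (i + 1)) τ ((w.drop (i + 1)).take d) []
        (Fl (i + 1)) hnzu (by intro x hx; simp at hx) (by rw [hlen]; simp; omega) (by
          rw [← hword, hs]; rfl)
      have h2 := this.1
      rw [← List.length_eq_zero_iff, hlen] at h2
      omega
    · have := hu K _ ac hIs (j - 1) hmin (ty τ (i + 1)) (ty τ i) ((w.drop (i + 1)).take d) [s]
        (Fl (i + 1)) hnzu (by intro x hx; simp at hx; rw [hx]; exact hs0)
        (by rw [hlen]; simp; omega) (by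
          rw [← hword, hs]; rfl)
      rcases this.2 with h2 | h2
      · rw [← List.length_eq_zero_iff, hlen] at h2
        omega
      · rw [ty_succ] at h2
        cases hh : ty τ i <;> simp [hh] at h2
  -- the embedding
  have hadj' : ∀ a b : Fin (2 * j), (b - a).val = 1 → A.graph.Adj (V a) (V b) := by
    intro a b hab
    rw [Fin.sub_def] at hab
    simp only at hab
    have ha := a.isLt
    have hb := b.isLt
    by_cases hlt : 2 * j - (a : ℕ) + (b : ℕ) < 2 * j
    · rw [Nat.mod_eq_of_lt hlt] at hab
      have h1 : (a : ℕ) = 2 * j - 1 := by omega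
      have h2 : (b : ℕ) = 0 := by omega
      have h3 := hVadj a ha
      rw [show (a : ℕ) + 1 = 2 * j from by omega, hVper] at h3
      rw [h2]
      exact h3
    · rw [Nat.mod_eq_sub_mod (by omega), Nat.mod_eq_of_lt (by omega)] at hab
      have h1 : (b : ℕ) = a + 1 := by omega
      rw [h1]
      exact hVadj a ha
  refine ⟨⟨⟨fun a => V a, ?_⟩, ?_⟩⟩
  · intro a b hab
    rw [SimpleGraph.cycleGraph_adj'] at hab
    rcases hab with h | h
    · exact (hadj' b a h).symm
    · exact hadj' a b h
  · intro a b hab
    have hab' : V a = V b := hab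
    rcases lt_trichotomy (a : ℕ) (b : ℕ) with h | h | h
    · exact absurd hab' (hVinj _ _ h b.isLt)
    · exact Fin.ext h
    · exact absurd hab'.symm (hVinj _ _ h a.isLt)

theorem tree (hu : Uniq) (A : ADG k K) (hk : 0 < k)
    (h : ∀ j : ℕ, 2 ≤ j → j ≤ k → ¬ (SimpleGraph.cycleGraph (2 * j)).IsContained A.graph) :
    (sys A hk).Tree := by
  classical
  unfold Sys.Tree
  rw [Nat.add_sub_cancel]
  -- by induction
  suffices hh : ∀ j, j ≤ k →
      NoClosed (fun (τ : Bool) (t : K) (f : Fin (k + 1) → K) => (sys A hk).act τ t f) (2 * j) from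
    hh k le_rfl
  intro j
  induction j with
  | zero =>
    intro _ τ w f hw _ hl
    exact absurd (List.length_eq_zero_iff.1 (by omega)) hw
  | succ j ih =>
    intro hjk τ w f hw hev hl hnz hc
    have ih' := ih (by omega)
    by_cases hlt : w.length ≤ 2 * j
    · exact ih' τ w f hw hev hlt hnz hc
    · have hwl : w.length = 2 * (j + 1) := by
        obtain ⟨e, he⟩ := hev
        omega
      obtain ⟨h2, h3⟩ := contained_of_closed hu A hk (j + 1) (by omega) (by simpa using ih') τ w f
        hwl hnz hc
      exact h (j + 1) h2 hjk h3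

end GraphPf

/-- (L8) An algebraically defined graph without short cycles gives a system of flows without short
closed words. -/
theorem graph_sys (hu : LUnique) : LGraph := by
  have hu' : GraphPf.Uniq := fun G F _ ac hac n hc τ σ u v f h1 h2 h3 h4 =>
    hu G F ac hac (2 * n) (even_two_mul n) hc τ σ u v f h1 h2 h3 h4
  intro K _ k hk A h
  exact ⟨GraphPf.sys A hk, GraphPf.tree hu' A hk h⟩

end Pool.Agent.H97F
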