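import Mathlib
import Pool.Agent.H97F.Defs

/-!
# L4 (helper24): the slope
-/

set_option autoImplicit false
set_option linter.all false

namespace Pool.Agent.H97F

open MvPolynomial

namespace Slope

variable {K : Type} [Field K] {N : ℕ}

/-- the part of the monomial in the `f` -/
def Fm (f : Fin N → K) (m : (Fin N ⊕ Bool) →₀ ℕ) : K := ∏ i, f i ^ m (Sum.inl i)

theorem ev_mono (m : (Fin N ⊕ Bool) →₀ ℕ) (c : K) (f : Fin N → K) (b a : K) :
    eval (Sum.elim f fun β => if β then b else a) (monomial m c) =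
      c * (Fm f m * (b ^ m (Sum.inr true) * a ^ m (Sum.inr false))) := by
  rw [eval_monomial, Finsupp.prod_fintype _ _ (by intro i; exact pow_zero _), Fintype.prod_sum_type]
  congr 1
  unfold Fm
  congr 1
  rw [Fintype.prod_bool]
  simp

theorem ev (p : MvPolynomial (Fin N ⊕ Bool) K) (f : Fin N → K) (b a : K) :
    eval (Sum.elim f fun β => if β then b else a) p =
      ∑ m ∈ p.support, p.coeff m * (Fm f m * (b ^ m (Sum.inr true) * a ^ m (Sum.inr false))) := by
  conv_lhs => rw [p.as_sum]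
  rw [map_sum]
  exact Finset.sum_congr rfl fun m _ => ev_mono m _ f b a

/-- the new exponents -/
noncomputable def tr (P Q : ℕ) (m : (Fin N ⊕ Bool) →₀ ℕ) : (Fin N ⊕ Bool) →₀ ℕ :=
  Finsupp.equivFunOnFinite.symm (Sum.elim (fun i => m (Sum.inl i)) fun β =>
    if β then m (Sum.inr false) else m (Sum.inr false) * P - m (Sum.inr true) * Q)

theorem tr_inl (P Q : ℕ) (m : (Fin N ⊕ Bool) →₀ ℕ) (i : Fin N) : tr P Q m (Sum.inl i) = m (Sum.inl i) := rfl

theorem tr_true (P Q : ℕ) (m : (Fin N ⊕ Bool) →₀ ℕ) : tr P Q m (Sum.inr true) = m (Sum.inr false) := rfl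

theorem tr_false (P Q : ℕ) (m : (Fin N ⊕ Bool) →₀ ℕ) :
    tr P Q m (Sum.inr false) = m (Sum.inr false) * P - m (Sum.inr true) * Q := rfl

theorem Fm_tr (P Q : ℕ) (m : (Fin N ⊕ Bool) →₀ ℕ) (f : Fin N → K) : Fm f (tr P Q m) = Fm f m := rfl

end Slope

open Slope in
/-- (L4) -/
theorem slope : LSlope := by
  classical
  intro K _ _ N Φ h1 h2
  obtain ⟨S, hS⟩ : ∃ S : Fin N → Finset ((Fin N ⊕ Bool) →₀ ℕ),
      ∀ j, S j = (Φ j).support.filter fun m => m (Sum.inr false) ≠ 0 := ⟨_, fun _ => rfl⟩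
  -- the values of `Φ`
  have hval : ∀ (f : Fin N → K) (b a : K) (j : Fin N),
      eval (Sum.elim f fun β => if β then b else a) (Φ j) =
        f j + ∑ m ∈ S j, (Φ j).coeff m * (Fm f m * (b ^ m (Sum.inr true) * a ^ m (Sum.inr false))) := by
    intro f b a j
    have h3 := h1 f b j
    rw [ev, ← Finset.sum_filter_add_sum_filter_not _ fun m => m (Sum.inr false) ≠ 0] at h3
    rw [Finset.sum_eq_zero (s := (Φ j).support.filter fun m => m (Sum.inr false) ≠ 0) (by
      intro m hm
      rw [zero_pow (Finset.mem_filter.1 hm).2]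
      ring), zero_add] at h3
    rw [ev, ← Finset.sum_filter_add_sum_filter_not _ fun m => m (Sum.inr false) ≠ 0, add_comm, hS, ← h3]
    congr 1
    refine Finset.sum_congr rfl fun m hm => ?_
    have h4 := (Finset.mem_filter.1 hm).2
    rw [not_not] at h4
    rw [h4, pow_zero, pow_zero]
  -- a monomial which contains `b`
  have hne : ∃ j, ∃ m ∈ S j, m (Sum.inr true) ≠ 0 := by
    by_contra hcon
    push Not at hcon
    obtain ⟨f, b, a, j, h3⟩ := h2
    apply h3
    rw [hval, hval]
    congr 1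
    refine Finset.sum_congr rfl fun m hm => ?_
    rw [hcon j m hm, pow_zero, pow_zero]
  obtain ⟨j₁, m₁, hm₁, hk₁⟩ := hne
  obtain ⟨⟨j₀, m₀⟩, hT, hmax⟩ := Finset.exists_max_image (Finset.univ.sigma S)
    (fun p => ((p.2 (Sum.inr true) : ℕ) : ℚ) / ((p.2 (Sum.inr false) : ℕ) : ℚ))
    ⟨⟨j₁, m₁⟩, Finset.mem_sigma.2 ⟨Finset.mem_univ _, hm₁⟩⟩
  have hm₀ : m₀ ∈ S j₀ := (Finset.mem_sigma.1 hT).2
  have hl : ∀ j, ∀ m ∈ S j, 0 < m (Sum.inr false) := by
    intro j m hm
    rw [hS] at hm
    exact Nat.pos_of_ne_zero (Finset.mem_filter.1 hm).2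
  obtain ⟨P, hP⟩ : ∃ P, P = m₀ (Sum.inr true) := ⟨_, rfl⟩
  obtain ⟨Q, hQ⟩ : ∃ Q, Q = m₀ (Sum.inr false) := ⟨_, rfl⟩
  have hQ0 : 0 < Q := by rw [hQ]; exact hl j₀ m₀ hm₀
  have hle : ∀ j, ∀ m ∈ S j, m (Sum.inr true) * Q ≤ m (Sum.inr false) * P := by
    intro j m hm
    have h3 := hmax ⟨j, m⟩ (Finset.mem_sigma.2 ⟨Finset.mem_univ _, hm⟩)
    simp only at h3
    rw [← hP, ← hQ, div_le_div_iff₀ (by exact_mod_cast hl j m hm) (by exact_mod_cast hQ0)] at h3
    rw [mul_comm (m (Sum.inr false))]
    exact_mod_cast h3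
  have hP0 : 0 < P := by
    have h3 := hle j₁ m₁ hm₁
    by_contra h4
    have h5 : P = 0 := by omega
    rw [h5, mul_zero] at h3
    have h6 : 0 < m₁ (Sum.inr true) * Q := Nat.mul_pos (Nat.pos_of_ne_zero hk₁) hQ0
    omega
  refine ⟨P, Q, fun j => X (Sum.inl j) + ∑ m ∈ S j, monomial (tr P Q m) ((Φ j).coeff m), hP0, hQ0, ?_, ?_⟩
  · intro f z v j hv
    rw [map_add, eval_X, map_sum, hval]
    simp only [Sum.elim_inl]
    congr 1
    refine Finset.sum_congr rfl fun m hm => ?_
    rw [ev_mono, Fm_tr, tr_true, tr_false]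
    congr 2
    rw [pow_sub₀ v hv (hle j m hm), mul_pow, inv_pow, ← pow_mul, ← pow_mul, mul_comm Q, mul_comm P]
    ring
  · by_contra hcon
    push Not at hcon
    -- the leading part
    obtain ⟨T, hTd⟩ : ∃ T : MvPolynomial (Fin N ⊕ Bool) K,
        T = ∑ m ∈ (S j₀).filter (fun m => m (Sum.inr true) * Q = m (Sum.inr false) * P),
          monomial (tr P Q m) ((Φ j₀).coeff m) := ⟨_, rfl⟩
    have hT0 : T = 0 := by
      apply MvPolynomial.funext
      intro x
      have hx : x = Sum.elim (fun i => x (Sum.inl i)) fun β => if β then x (Sum.inr true) else x (Sum.inr false) := by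
        funext i
        rcases i with i | β
        · rfl
        · cases β <;> rfl
      rw [map_zero, hx, hTd, map_sum]
      have h3 := hcon (fun i => x (Sum.inl i)) (x (Sum.inr true)) j₀
      rw [map_add, eval_X, map_sum] at h3
      simp only [Sum.elim_inl] at h3
      rw [add_eq_left, ← Finset.sum_filter_add_sum_filter_not _
        fun m => m (Sum.inr true) * Q = m (Sum.inr false) * P] at h3
      rw [Finset.sum_eq_zero (s := (S j₀).filter fun m => ¬ m (Sum.inr true) * Q = m (Sum.inr false) * P) (by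
        intro m hm
        rw [Finset.mem_filter] at hm
        have h4 := hle j₀ m hm.1
        rw [ev_mono, tr_false, zero_pow (by omega)]
        ring), add_zero] at h3
      rw [← h3]
      refine Finset.sum_congr rfl fun m hm => ?_
      have h4 := (Finset.mem_filter.1 hm).2
      rw [ev_mono, ev_mono, tr_false, h4, Nat.sub_self, pow_zero, pow_zero]
    have hc : coeff (tr P Q m₀) T = coeff m₀ (Φ j₀) := by
      rw [hTd, coeff_sum, Finset.sum_eq_single m₀]
      · rw [coeff_monomial, if_pos rfl]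
      · intro m hm hmne
        rw [coeff_monomial, if_neg]
        intro h3
        apply hmne
        rw [Finset.mem_filter] at hm
        have e1 : m (Sum.inr false) = m₀ (Sum.inr false) := by
          rw [← tr_true P Q m, h3, tr_true]
        have e2 : m (Sum.inr true) = m₀ (Sum.inr true) := by
          have h4 := hm.2
          rw [e1, ← hQ, mul_comm Q] at h4
          rw [← hP]
          exact Nat.eq_of_mul_eq_mul_right hQ0 h4
        ext i
        rcases i with i | β
        · rw [← tr_inl P Q m, h3, tr_inl]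
        · cases β
          · exact e1
          · exact e2
      · intro h3
        exfalso
        apply h3
        rw [Finset.mem_filter]
        refine ⟨hm₀, ?_⟩
        rw [← hP, ← hQ, mul_comm]
    rw [hT0, coeff_zero] at hc
    rw [hS] at hm₀
    exact (mem_support_iff.1 (Finset.mem_filter.1 hm₀).1) hc.symm

end Pool.Agent.H97F
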