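import Pool.Agent.H97F.Div

/-!
# The relation between the exponents
-/

set_option autoImplicit false

namespace Pool.Agent.H97F

open MvPolynomial

section

variable {K : Type} [Field K] {N : ℕ} (S : Sys K N)

/-- the point of the parameters of `LSlope` -/
def par {R : Type} (f : Fin N → R) (z v : R) : Fin N ⊕ Bool → R :=
  Sum.elim f fun β => if β then z else v

/-- the polynomials of the words `b, a, -b` -/
noncomputable def Phi (σ : Bool) : Fin N → MvPolynomial (Fin N ⊕ Bool) K :=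
  wrd (fun (τ : Bool) (t : MvPolynomial (Fin N ⊕ Bool) K) f => S.act τ t f) σ
    [X (Sum.inr true), X (Sum.inr false), -X (Sum.inr true)] (fun j => X (Sum.inl j))

theorem eval_Phi (σ : Bool) (f : Fin N → K) (b a : K) (j : Fin N) :
    eval (par f b a) (Phi S σ j) = wrd (fun (τ : Bool) (t : K) (f : Fin N → K) => Sys.act S τ t f) σ [b, a, -b] f j := by
  have h := congrFun (wrd_map S (aeval (par f b a) : MvPolynomial (Fin N ⊕ Bool) K →ₐ[K] K) σ
    [X (Sum.inr true), X (Sum.inr false), -X (Sum.inr true)] (fun j => X (Sum.inl j))) j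
  rw [← MvPolynomial.aeval_eq_eval]
  refine h.trans ?_
  simp [par]

/-- a polynomial map and an algebra homomorphism to the field -/
theorem hom_aeval {ι R : Type} [CommRing R] [Algebra K R] (φ : R →ₐ[K] K) (s : ι → R)
    (p : MvPolynomial ι K) : φ (aeval s p) = eval (fun i => φ (s i)) p := by
  rw [← MvPolynomial.aeval_eq_eval]
  have : φ.comp (aeval s) = aeval fun i => φ (s i) := by
    refine MvPolynomial.algHom_ext fun o => ?_
    simp
  rw [← this]
  rfl

/-- the family as polynomials in `v` -/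
noncomputable def Gv (Ψ : Fin N → MvPolynomial (Fin N ⊕ Bool) K) (σ : Bool) (suf : List K)
    (g : Fin N → K) (z : K) : Fin N → Polynomial K :=
  wrd (fun (τ : Bool) (t : Polynomial K) f => S.act τ t f) σ
    (suf.map (Algebra.ofId K (Polynomial K)))
    fun j => aeval (par (fun i => Polynomial.C (g i)) (Polynomial.C z) Polynomial.X) (Ψ j)

/-- the family as polynomials in `z`, for `v = 0` -/
noncomputable def Gz (Ψ : Fin N → MvPolynomial (Fin N ⊕ Bool) K) (σ : Bool) (suf : List K)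
    (g : Fin N → K) : Fin N → Polynomial K :=
  wrd (fun (τ : Bool) (t : Polynomial K) f => S.act τ t f) σ
    (suf.map (Algebra.ofId K (Polynomial K)))
    fun j => aeval (par (fun i => Polynomial.C (g i)) Polynomial.X 0) (Ψ j)

/-- the family -/
noncomputable def GG (Ψ : Fin N → MvPolynomial (Fin N ⊕ Bool) K) (σ : Bool) (suf : List K)
    (g : Fin N → K) (z v : K) : Fin N → K :=
  wrd (fun (τ : Bool) (t : K) (f : Fin N → K) => Sys.act S τ t f) σ suf fun j => eval (par g z v) (Ψ j)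

theorem eval_Gv (Ψ : Fin N → MvPolynomial (Fin N ⊕ Bool) K) (σ : Bool) (suf : List K)
    (g : Fin N → K) (z v : K) (j : Fin N) :
    (Gv S Ψ σ suf g z j).eval v = GG S Ψ σ suf g z v j := by
  have h := congrFun (wrd_map S (Polynomial.aeval v : Polynomial K →ₐ[K] K) σ
    (suf.map (Algebra.ofId K (Polynomial K)))
    fun j => aeval (par (fun i => Polynomial.C (g i)) (Polynomial.C z) Polynomial.X) (Ψ j)) j
  have e1 : (Gv S Ψ σ suf g z j).eval v = (Polynomial.aeval v : Polynomial K →ₐ[K] K)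
      (Gv S Ψ σ suf g z j) := by rw [Polynomial.coe_aeval_eq_eval]
  rw [e1]
  refine h.trans ?_
  have l1 : List.map (Polynomial.aeval v : Polynomial K →ₐ[K] K)
      (suf.map (Algebra.ofId K (Polynomial K))) = suf := by
    rw [List.map_map]
    have : (⇑(Polynomial.aeval v : Polynomial K →ₐ[K] K) ∘ ⇑(Algebra.ofId K (Polynomial K))) =
        id := by
      funext x
      simp [Algebra.ofId_apply]
    rw [this, List.map_id]
  have l2 : (fun i => (Polynomial.aeval v : Polynomial K →ₐ[K] K)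
      (aeval (par (fun i => Polynomial.C (g i)) (Polynomial.C z) Polynomial.X) (Ψ i))) =
      fun j => eval (par g z v) (Ψ j) := by
    funext i
    rw [hom_aeval]
    congr 2
    funext o
    rcases o with o | o
    · simp [par]
    · cases o <;> simp [par]
  rw [l1, l2]
  rfl

theorem eval_Gz (Ψ : Fin N → MvPolynomial (Fin N ⊕ Bool) K) (σ : Bool) (suf : List K)
    (g : Fin N → K) (z : K) (j : Fin N) :
    (Gz S Ψ σ suf g j).eval z = GG S Ψ σ suf g z 0 j := by
  have h := congrFun (wrd_map S (Polynomial.aeval z : Polynomial K →ₐ[K] K) σ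
    (suf.map (Algebra.ofId K (Polynomial K)))
    fun j => aeval (par (fun i => Polynomial.C (g i)) Polynomial.X 0) (Ψ j)) j
  have e1 : (Gz S Ψ σ suf g j).eval z = (Polynomial.aeval z : Polynomial K →ₐ[K] K)
      (Gz S Ψ σ suf g j) := by rw [Polynomial.coe_aeval_eq_eval]
  rw [e1]
  refine h.trans ?_
  have l1 : List.map (Polynomial.aeval z : Polynomial K →ₐ[K] K)
      (suf.map (Algebra.ofId K (Polynomial K))) = suf := by
    rw [List.map_map]
    have : (⇑(Polynomial.aeval z : Polynomial K →ₐ[K] K) ∘ ⇑(Algebra.ofId K (Polynomial K))) =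
        id := by
      funext x
      simp [Algebra.ofId_apply]
    rw [this, List.map_id]
  have l2 : (fun i => (Polynomial.aeval z : Polynomial K →ₐ[K] K)
      (aeval (par (fun i => Polynomial.C (g i)) Polynomial.X 0) (Ψ i))) =
      fun j => eval (par g z 0) (Ψ j) := by
    funext i
    rw [hom_aeval]
    congr 2
    funext o
    rcases o with o | o
    · simp [par]
    · cases o <;> simp [par]
  rw [l1, l2]
  rfl

/-- a polynomial of the pair as a polynomial in `v` -/
noncomputable def Pv (Ψ : Fin N → MvPolynomial (Fin N ⊕ Bool) K) (σ : Bool) (suf : List K)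
    (f g : Fin N → K) (z : K) (p : MvPolynomial (Va N) K) : Polynomial K :=
  aeval (Sum.elim (fun i => Polynomial.C (f i)) (Gv S Ψ σ suf g z)) p

theorem eval_Pv (Ψ : Fin N → MvPolynomial (Fin N ⊕ Bool) K) (σ : Bool) (suf : List K)
    (f g : Fin N → K) (z v : K) (p : MvPolynomial (Va N) K) :
    (Pv S Ψ σ suf f g z p).eval v = eval (Sum.elim f (GG S Ψ σ suf g z v)) p := by
  have e1 : (Pv S Ψ σ suf f g z p).eval v = (Polynomial.aeval v : Polynomial K →ₐ[K] K)
      (Pv S Ψ σ suf f g z p) := by rw [Polynomial.coe_aeval_eq_eval]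
  rw [e1]
  unfold Pv
  rw [hom_aeval]
  congr 2
  funext o
  rcases o with o | o
  · simp
  · simp only [Sum.elim_inr]
    rw [Polynomial.coe_aeval_eq_eval, eval_Gv]

/-- a polynomial of the pair as a polynomial in `z`, for `v = 0` -/
noncomputable def Pz (Ψ : Fin N → MvPolynomial (Fin N ⊕ Bool) K) (σ : Bool) (suf : List K)
    (f g : Fin N → K) (p : MvPolynomial (Va N) K) : Polynomial K :=
  aeval (Sum.elim (fun i => Polynomial.C (f i)) (Gz S Ψ σ suf g)) p

theorem eval_Pz (Ψ : Fin N → MvPolynomial (Fin N ⊕ Bool) K) (σ : Bool) (suf : List K)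
    (f g : Fin N → K) (z : K) (p : MvPolynomial (Va N) K) :
    (Pz S Ψ σ suf f g p).eval z = eval (Sum.elim f (GG S Ψ σ suf g z 0)) p := by
  have e1 : (Pz S Ψ σ suf f g p).eval z = (Polynomial.aeval z : Polynomial K →ₐ[K] K)
      (Pz S Ψ σ suf f g p) := by rw [Polynomial.coe_aeval_eq_eval]
  rw [e1]
  unfold Pz
  rw [hom_aeval]
  congr 2
  funext o
  rcases o with o | o
  · simp
  · simp only [Sum.elim_inr]
    rw [Polynomial.coe_aeval_eq_eval, eval_Gz]

/-- the data of the slope -/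
structure Slope (σ : Bool) (P Q : ℕ) (Ψ : Fin N → MvPolynomial (Fin N ⊕ Bool) K) : Prop where
  P_pos : 0 < P
  Q_pos : 0 < Q
  eq : ∀ (f : Fin N → K) (z v : K), v ≠ 0 → (fun j => eval (par f z v) (Ψ j)) =
    wrd (fun (τ : Bool) (t : K) (f : Fin N → K) => Sys.act S τ t f) σ [(v ^ Q)⁻¹, z * v ^ P, -(v ^ Q)⁻¹] f
  ne : ∃ (f : Fin N → K) (z : K) (j : Fin N), eval (par f z 0) (Ψ j) ≠ f j

variable [Infinite K]

theorem exists_slope (hS : LSlope) (hN : 3 ≤ N) (hT : S.Tree) (σ : Bool) :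
    ∃ P Q Ψ, Slope S σ P Q Ψ := by
  have g1 : ∀ (f : Fin N → K) (b : K) (j : Fin N), eval (par f b 0) (Phi S σ j) = f j := by
    intro f b j
    rw [eval_Phi S σ f b 0 j]
    have e : wrd (fun (τ : Bool) (t : K) (f : Fin N → K) => Sys.act S τ t f) σ [b, 0, -b] f = f := by
      show S.act (!(!σ)) (-b) (S.act (!σ) 0 (S.act σ b f)) = f
      rw [(isAct S).zero, Bool.not_not]
      exact (isAct S).neg_cancel σ b f
    rw [e]
  have g2 : ∃ (f : Fin N → K) (b a : K) (j : Fin N),
      eval (par f b a) (Phi S σ j) ≠ eval (par f 0 a) (Phi S σ j) := by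
    by_contra hcon
    push Not at hcon
    have h3 : ∀ f : Fin N → K, wrd (fun (τ : Bool) (t : K) (f : Fin N → K) => Sys.act S τ t f) σ [1, 1, -1] f = S.act (!σ) 1 f := by
      intro f
      funext j
      rw [← eval_Phi, hcon f 1 1 j, eval_Phi]
      have e : wrd (fun (τ : Bool) (t : K) (f : Fin N → K) => Sys.act S τ t f) σ [0, 1, -0] f = S.act (!σ) 1 f := by
        show S.act (!(!σ)) (-0) (S.act (!σ) 1 (S.act σ 0 f)) = _
        rw [neg_zero, (isAct S).zero, (isAct S).zero]
      rw [e]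
    refine hT σ [1, 1, -1, -1] (fun _ => 0) (by simp) ⟨2, by simp⟩ ?_ ?_ ?_
    · simp only [List.length_cons, List.length_nil]
      omega
    · intro x hx
      simp only [List.mem_cons, List.not_mem_nil, or_false] at hx
      rcases hx with rfl | rfl | rfl | rfl <;> simp
    · have e : wrd (fun (τ : Bool) (t : K) (f : Fin N → K) => Sys.act S τ t f) σ [1, 1, -1, -1] (fun _ => 0) =
          S.act (!σ) (-1) (wrd (fun (τ : Bool) (t : K) (f : Fin N → K) => Sys.act S τ t f) σ [1, 1, -1] (fun _ => 0)) := by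
        show S.act (!(!(!σ))) (-1) _ = _
        rw [Bool.not_not]
        rfl
      rw [e, h3]
      exact (isAct S).neg_cancel (!σ) 1 _
  obtain ⟨P, Q, Ψ, hP, hQ, h1, h2⟩ := hS K N (Phi S σ) g1 g2
  refine ⟨P, Q, Ψ, hP, hQ, ?_, h2⟩
  intro f z v hv
  funext j
  rw [← eval_Phi]
  exact h1 f z v j hv

variable {S}

theorem infinite_ne : {v : K | v ≠ 0}.Infinite := by
  have : {v : K | v ≠ 0} = {0}ᶜ := by ext; simp
  rw [this]
  exact (Set.finite_singleton 0).infinite_compl

theorem poly_ext {p q : Polynomial K} (h : ∀ v : K, v ≠ 0 → p.eval v = q.eval v) : p = q :=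
  Polynomial.eq_of_infinite_eval_eq p q (infinite_ne.mono fun v hv => h v hv)

theorem Slope.at_zero {σ : Bool} {P Q : ℕ} {Ψ : Fin N → MvPolynomial (Fin N ⊕ Bool) K}
    (h : Slope S σ P Q Ψ) (f : Fin N → K) : (fun j => eval (par f 0 0) (Ψ j)) = f := by
  funext j
  have e1 : Gv S Ψ σ [] f 0 j = Polynomial.C (f j) := by
    apply poly_ext
    intro v hv
    rw [eval_Gv, Polynomial.eval_C]
    unfold GG
    show eval (par f 0 v) (Ψ j) = f j
    rw [show eval (par f 0 v) (Ψ j) = (fun j => eval (par f 0 v) (Ψ j)) j from rfl, h.eq f 0 v hv]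
    have e : wrd (fun (τ : Bool) (t : K) (f : Fin N → K) => Sys.act S τ t f) σ [(v ^ Q)⁻¹, 0 * v ^ P, -(v ^ Q)⁻¹] f = f := by
      show S.act (!(!σ)) (-(v ^ Q)⁻¹) (S.act (!σ) (0 * v ^ P) (S.act σ (v ^ Q)⁻¹ f)) = f
      rw [zero_mul, (isAct S).zero, Bool.not_not]
      exact (isAct S).neg_cancel σ _ f
    rw [e]
  have e2 := eval_Gv S Ψ σ [] f 0 0 j
  rw [e1, Polynomial.eval_C] at e2
  exact e2.symm

/-- the family for `v ≠ 0` -/
theorem Slope.GG_eq {σ : Bool} {P Q : ℕ} {Ψ : Fin N → MvPolynomial (Fin N ⊕ Bool) K}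
    (h : Slope S σ P Q Ψ) (r : K) (suf : List K) (g : Fin N → K) (z v : K) (hv : v ≠ 0) :
    GG S Ψ σ (r :: suf) g z v =
      wrd (fun (τ : Bool) (t : K) (f : Fin N → K) => Sys.act S τ t f) σ ((v ^ Q)⁻¹ :: (z * v ^ P) :: (r - (v ^ Q)⁻¹) :: suf) g := by
  unfold GG
  rw [h.eq g z v hv]
  show wrd (fun (τ : Bool) (t : K) (f : Fin N → K) => Sys.act S τ t f) (!σ) suf (S.act σ r (S.act (!(!σ)) (-(v ^ Q)⁻¹) _)) =
    wrd (fun (τ : Bool) (t : K) (f : Fin N → K) => Sys.act S τ t f) (!(!(!σ))) suf (S.act (!(!σ)) (r - (v ^ Q)⁻¹) _)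
  rw [Bool.not_not]
  congr 1
  rw [← (isAct S).add]
  congr 1
  ring

/-- the polynomial of the special words along the family -/
theorem key_identity {τ σ : Bool} {P Q n m : ℕ} {Ψ : Fin N → MvPolynomial (Fin N ⊕ Bool) K}
    (h : Slope S σ P Q Ψ) (hnm : n + m + 3 = N) (hσ : σ = ty τ n)
    {q : MvPolynomial (Va N) K} {y : ℕ → ℕ} {c : K}
    (hq : ∀ (f : Fin N → K) (w : List K), w.length = N →
        eval (Sum.elim f (wrd (fun (τ : Bool) (t : K) (f : Fin N → K) => Sys.act S τ t f) τ w f)) q = c * mono y 0 w)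
    (f : Fin N → K) (pre suf : List K) (r z : K) (hpre : pre.length = n)
    (hsuf : suf.length = m) :
    Pv S Ψ σ (r :: suf) f (wrd (fun (τ : Bool) (t : K) (f : Fin N → K) => Sys.act S τ t f) τ pre f) z q * Polynomial.X ^ (Q * (y n + y (n + 2))) =
      Polynomial.C (c * mono y 0 pre * z ^ y (n + 1) * mono y (n + 3) suf) *
        Polynomial.X ^ (P * y (n + 1)) *
        (Polynomial.C r * Polynomial.X ^ Q - 1) ^ y (n + 2) := by
  apply poly_ext
  intro v hv
  rw [Polynomial.eval_mul, Polynomial.eval_mul, Polynomial.eval_mul, Polynomial.eval_pow,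
    Polynomial.eval_pow, Polynomial.eval_pow, Polynomial.eval_sub, Polynomial.eval_mul,
    Polynomial.eval_pow, Polynomial.eval_one, Polynomial.eval_X, Polynomial.eval_C,
    Polynomial.eval_C, eval_Pv, h.GG_eq r suf _ z v hv]
  have e1 : wrd (fun (τ : Bool) (t : K) (f : Fin N → K) => Sys.act S τ t f) σ ((v ^ Q)⁻¹ :: (z * v ^ P) :: (r - (v ^ Q)⁻¹) :: suf) (wrd (fun (τ : Bool) (t : K) (f : Fin N → K) => Sys.act S τ t f) τ pre f) =
      wrd (fun (τ : Bool) (t : K) (f : Fin N → K) => Sys.act S τ t f) τ (pre ++ ((v ^ Q)⁻¹ :: (z * v ^ P) :: (r - (v ^ Q)⁻¹) :: suf)) f := by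
    rw [wrd_append, hpre, hσ]
  rw [e1, hq f _ (by simp only [List.length_append, List.length_cons]; omega), mono_append,
    hpre, zero_add]
  simp only [mono]
  have hvQ : v ^ Q ≠ 0 := pow_ne_zero _ hv
  have e2 : (r - (v ^ Q)⁻¹) = (r * v ^ Q - 1) * (v ^ Q)⁻¹ := by
    field_simp
  rw [e2, mul_pow, mul_pow, inv_pow, inv_pow, ← pow_mul, ← pow_mul, ← pow_mul, mul_add, pow_add]
  have h1 : v ^ (Q * y n) ≠ 0 := pow_ne_zero _ hv
  have h2 : v ^ (Q * y (n + 2)) ≠ 0 := pow_ne_zero _ hv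
  field_simp

/-- the inequality between the exponents -/
theorem exp_le {τ σ : Bool} {P Q n m : ℕ} {Ψ : Fin N → MvPolynomial (Fin N ⊕ Bool) K}
    (h : Slope S σ P Q Ψ) (hnm : n + m + 3 = N) (hσ : σ = ty τ n)
    {q : MvPolynomial (Va N) K} {y : ℕ → ℕ} {c : K} (hc : c ≠ 0)
    (hq : ∀ (f : Fin N → K) (w : List K), w.length = N →
        eval (Sum.elim f (wrd (fun (τ : Bool) (t : K) (f : Fin N → K) => Sys.act S τ t f) τ w f)) q = c * mono y 0 w) :
    Q * (y n + y (n + 2)) ≤ P * y (n + 1) := by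
  by_contra hcon
  push Not at hcon
  have hk := key_identity h hnm hσ hq (fun _ => 0) (List.replicate n 1) (List.replicate m 1) 1 1
    (by simp) (by simp)
  obtain ⟨k, hk1⟩ : ∃ k, Q * (y n + y (n + 2)) = P * y (n + 1) + (k + 1) :=
    ⟨Q * (y n + y (n + 2)) - P * y (n + 1) - 1, by omega⟩
  rw [hk1, pow_add, mul_comm (Polynomial.X ^ (P * y (n + 1))), ← mul_assoc,
    mul_right_comm _ (Polynomial.X ^ (P * y (n + 1)))] at hk
  have hX : (Polynomial.X : Polynomial K) ^ (P * y (n + 1)) ≠ 0 :=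
    pow_ne_zero _ Polynomial.X_ne_zero
  have hk2 := mul_right_cancel₀ hX hk
  have hk3 := congrArg (Polynomial.eval 0) hk2
  have hQ := h.Q_pos
  rw [Polynomial.eval_mul, Polynomial.eval_mul, Polynomial.eval_pow, Polynomial.eval_pow,
    Polynomial.eval_sub, Polynomial.eval_mul, Polynomial.eval_pow, Polynomial.eval_one,
    Polynomial.eval_X, Polynomial.eval_C, Polynomial.eval_C, zero_pow (by omega), mul_zero,
    zero_pow (by omega), mul_zero, zero_sub] at hk3
  have hnz : ∀ k, NZ (List.replicate k (1 : K)) := by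
    intro k x hx
    rw [List.eq_of_mem_replicate hx]
    exact one_ne_zero
  have h1 : c * mono y 0 (List.replicate n 1) * (1 : K) ^ y (n + 1) *
      mono y (n + 3) (List.replicate m 1) * (-1) ^ y (n + 2) ≠ 0 := by
    refine mul_ne_zero (mul_ne_zero (mul_ne_zero (mul_ne_zero hc (mono_ne_zero _ _ (hnz _)))
      (by rw [one_pow]; exact one_ne_zero)) (mono_ne_zero _ _ (hnz _))) ?_
    exact pow_ne_zero _ (neg_ne_zero.2 one_ne_zero)
  exact h1 hk3.symm

/-- if the inequality is strict then the polynomial vanishes on the limits -/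
theorem q_zero {τ σ : Bool} {P Q n m : ℕ} {Ψ : Fin N → MvPolynomial (Fin N ⊕ Bool) K}
    (h : Slope S σ P Q Ψ) (hnm : n + m + 3 = N) (hσ : σ = ty τ n)
    {q : MvPolynomial (Va N) K} {y : ℕ → ℕ} {c : K}
    (hq : ∀ (f : Fin N → K) (w : List K), w.length = N →
        eval (Sum.elim f (wrd (fun (τ : Bool) (t : K) (f : Fin N → K) => Sys.act S τ t f) τ w f)) q = c * mono y 0 w)
    (hlt : Q * (y n + y (n + 2)) < P * y (n + 1))
    (f : Fin N → K) (pre suf : List K) (r z : K) (hpre : pre.length = n)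
    (hsuf : suf.length = m) :
    eval (Sum.elim f (GG S Ψ σ (r :: suf) (wrd (fun (τ : Bool) (t : K) (f : Fin N → K) => Sys.act S τ t f) τ pre f) z 0)) q = 0 := by
  have hk := key_identity h hnm hσ hq f pre suf r z hpre hsuf
  obtain ⟨k, hk1⟩ : ∃ k, P * y (n + 1) = Q * (y n + y (n + 2)) + (k + 1) :=
    ⟨P * y (n + 1) - Q * (y n + y (n + 2)) - 1, by omega⟩
  rw [hk1, pow_add, mul_comm (Polynomial.X ^ (Q * (y n + y (n + 2)))), ← mul_assoc,
    mul_right_comm _ (Polynomial.X ^ (Q * (y n + y (n + 2))))] at hk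
  have hX : (Polynomial.X : Polynomial K) ^ (Q * (y n + y (n + 2))) ≠ 0 :=
    pow_ne_zero _ Polynomial.X_ne_zero
  have hk2 := mul_right_cancel₀ hX hk
  rw [← eval_Pv, hk2, Polynomial.eval_mul, Polynomial.eval_mul, Polynomial.eval_pow,
    Polynomial.eval_X, zero_pow (by omega), mul_zero, zero_mul]

end

end Pool.Agent.H97F
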