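import Pool.Agent.H97F.Defs

/-!
# Uniqueness of short reduced words
-/

set_option autoImplicit false

namespace Pool.Agent.H97F

section

variable {G F : Type}

theorem ty_zero (τ : Bool) : ty τ 0 = τ := by simp [ty]

theorem ty_succ (τ : Bool) (n : ℕ) : ty τ (n + 1) = !(ty τ n) := by
  cases τ <;> simp [ty]

theorem ty_not (τ : Bool) (n : ℕ) : ty (!τ) n = !(ty τ n) := by
  cases τ <;> simp [ty]

theorem ty_add (τ : Bool) (m n : ℕ) : ty τ (m + n) = ty (ty τ m) n := by
  induction n with
  | zero => simp [ty_zero]
  | succ n ih => rw [← add_assoc, ty_succ, ty_succ, ih]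

theorem ty_even (τ : Bool) {n : ℕ} (h : Even n) : ty τ n = τ := by
  obtain ⟨m, rfl⟩ := h
  induction m with
  | zero => simp [ty_zero]
  | succ m ih =>
    have e : m + 1 + (m + 1) = m + m + 1 + 1 := by omega
    rw [e, ty_succ, ty_succ, ih, Bool.not_not]

theorem ty_ty (τ : Bool) (n : ℕ) : ty (ty τ n) n = τ := by
  rw [← ty_add]
  exact ty_even τ ⟨n, rfl⟩

theorem wrd_append (ac : Bool → G → F → F) (τ : Bool) (u v : List G) (f : F) :
    wrd ac τ (u ++ v) f = wrd ac (ty τ u.length) v (wrd ac τ u f) := by
  induction u generalizing τ f with
  | nil => simp [wrd, ty_zero]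
  | cons a u ih =>
    simp only [List.cons_append, wrd, List.length_cons]
    rw [ih, ty_not, ← ty_succ]

theorem nz_append [Zero G] {u v : List G} : NZ (u ++ v) ↔ NZ u ∧ NZ v := by
  simp only [NZ, List.mem_append]
  constructor
  · intro h
    exact ⟨fun x hx => h x (Or.inl hx), fun x hx => h x (Or.inr hx)⟩
  · rintro ⟨h1, h2⟩ x (hx | hx)
    · exact h1 x hx
    · exact h2 x hx

theorem nz_cons [Zero G] {a : G} {v : List G} : NZ (a :: v) ↔ a ≠ 0 ∧ NZ v := by
  simp [NZ]

theorem nz_nil [Zero G] : NZ ([] : List G) := by
  simp [NZ]

theorem nz_singleton [Zero G] {a : G} : NZ [a] ↔ a ≠ 0 := by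
  simp [NZ]

variable [AddCommGroup G] {ac : Bool → G → F → F}

theorem IsAct.neg_cancel (h : IsAct ac) (τ : Bool) (t : G) (f : F) :
    ac τ (-t) (ac τ t f) = f := by
  rw [← h.add, add_neg_cancel, h.zero]

theorem IsAct.inj (h : IsAct ac) {τ : Bool} {t : G} {f g : F} (e : ac τ t f = ac τ t g) :
    f = g := by
  rw [← h.neg_cancel τ t f, e, h.neg_cancel]

/-- the inverse word -/
def invw (v : List G) : List G := (v.map fun x => -x).reverse

theorem invw_cons (x : G) (v : List G) : invw (x :: v) = invw v ++ [-x] := by
  simp [invw]

theorem length_invw (v : List G) : (invw v).length = v.length := by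
  simp [invw]

theorem nz_invw {v : List G} (h : NZ v) : NZ (invw v) := by
  intro x hx
  simp only [invw, List.mem_reverse, List.mem_map] at hx
  obtain ⟨y, hy, rfl⟩ := hx
  exact neg_ne_zero.2 (h y hy)

theorem wrd_invw (h : IsAct ac) (σ : Bool) (v : List G) (f : F) :
    wrd ac (!(ty σ v.length)) (invw v) (wrd ac σ v f) = f := by
  induction v generalizing σ f with
  | nil => simp [invw, wrd]
  | cons x v ih =>
    rw [invw_cons, wrd_append, length_invw, List.length_cons]
    have e1 : ty σ (v.length + 1) = ty (!σ) v.length := by rw [ty_not, ty_succ]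
    rw [e1]
    have e2 : wrd ac σ (x :: v) f = wrd ac (!σ) v (ac σ x f) := rfl
    rw [e2, ih]
    have e3 : ty (!(ty (!σ) v.length)) v.length = σ := by
      rw [ty_not, ty_ty, Bool.not_not]
    rw [e3]
    exact h.neg_cancel σ x f

/-- no closed reduced words at all -/
theorem noClosed_all (h : IsAct ac) {n : ℕ} (hn : Even n) (hc : NoClosed ac n) :
    ∀ (m : ℕ) (τ : Bool) (w : List G) (f : F), w.length = m → w ≠ [] → NZ w → w.length ≤ n + 1 →
      wrd ac τ w f ≠ f := by
  intro m
  induction m using Nat.strong_induction_on with
  | _ m ih =>
    intro τ w f hm hw hnz hl he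
    rcases Nat.even_or_odd w.length with hev | hodd
    · refine hc τ w f hw hev ?_ hnz he
      obtain ⟨a, ha⟩ := hev
      obtain ⟨b, hb⟩ := hn
      omega
    · rcases w with _ | ⟨x, w⟩
      · exact hw rfl
      rcases List.eq_nil_or_concat w with rfl | ⟨u, y, rfl⟩
      · exact (nz_singleton.1 hnz) (h.free τ x f he)
      · rw [List.concat_eq_append] at *
        have hl2 : (x :: (u ++ [y])).length = u.length + 2 := by simp
        obtain ⟨h1, h2⟩ := nz_cons.1 hnz
        obtain ⟨h3, h4⟩ := nz_append.1 h2
        have hty : ty (!τ) u.length = τ := by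
          have : Odd u.length := by
            rw [hl2] at hodd
            obtain ⟨c, hc⟩ := hodd
            exact ⟨c - 1, by omega⟩
          obtain ⟨c, hc⟩ := this
          rw [hc, ty_succ, ty_even (!τ) ⟨c, by ring⟩, Bool.not_not]
        have e1 : wrd ac τ (x :: (u ++ [y])) f = ac τ y (wrd ac (!τ) u (ac τ x f)) := by
          show wrd ac (!τ) (u ++ [y]) (ac τ x f) = _
          rw [wrd_append, hty]
          rfl
        rw [e1] at he
        have e2 : ac τ (y + x) (wrd ac (!τ) u (ac τ x f)) = ac τ x f := by
          rw [h.add, he]
        by_cases hyx : y + x = 0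
        · rw [hyx, h.zero] at e2
          have hu : u ≠ [] := by
            rintro rfl
            rw [hl2, List.length_nil] at hodd
            exact absurd hodd (by decide)
          exact ih u.length (by rw [← hm, hl2]; omega) (!τ) u (ac τ x f) rfl hu h3
            (by rw [hl2] at hl; omega) e2
        · refine hc (!τ) (u ++ [y + x]) (ac τ x f) (by simp) ?_ ?_ ?_ ?_
          · rw [List.length_append, List.length_singleton]
            rw [hl2] at hodd
            obtain ⟨c, hc⟩ := hodd
            exact ⟨c, by omega⟩
          · rw [List.length_append, List.length_singleton]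
            rw [hl2] at hl
            omega
          · exact nz_append.2 ⟨h3, nz_singleton.2 hyx⟩
          · rw [wrd_append, hty]
            exact e2

theorem unique_aux (h : IsAct ac) {n : ℕ} (hn : Even n) (hc : NoClosed ac n) :
    ∀ (m : ℕ) (τ σ : Bool) (u v : List G) (f : F), u.length + v.length = m → m ≤ n + 1 →
      NZ u → NZ v → wrd ac τ u f = wrd ac σ v f → u = v ∧ (u = [] ∨ τ = σ) := by
  intro m
  induction m using Nat.strong_induction_on with
  | _ m ih =>
    intro τ σ u v f hm hmn hu hv he
    rcases List.eq_nil_or_concat u with rfl | ⟨u', x, rfl⟩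
    · rcases List.eq_nil_or_concat v with rfl | ⟨v', y, rfl⟩
      · exact ⟨rfl, Or.inl rfl⟩
      · rw [List.concat_eq_append] at *
        exact absurd he.symm (noClosed_all h hn hc _ σ _ f rfl (by simp) hv
          (by simp only [List.length_nil] at hm; omega))
    · rw [List.concat_eq_append] at *
      rcases List.eq_nil_or_concat v with rfl | ⟨v', y, rfl⟩
      · exact absurd he (noClosed_all h hn hc _ τ _ f rfl (by simp) hu
          (by simp only [List.length_nil] at hm; omega))
      · rw [List.concat_eq_append] at *
        simp only [List.length_append, List.length_singleton] at hm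
        obtain ⟨hu', hx⟩ := nz_append.1 hu
        obtain ⟨hv', hy⟩ := nz_append.1 hv
        rw [nz_singleton] at hx hy
        by_cases hab : ty τ u'.length = ty σ v'.length
        · rw [wrd_append, wrd_append] at he
          simp only [wrd] at he
          rw [← hab] at he
          have he2 : ac (ty τ u'.length) (x - y) (wrd ac τ u' f) = wrd ac σ v' f := by
            rw [sub_eq_add_neg, h.add, he, h.neg_cancel]
          by_cases hxy : x = y
          · subst hxy
            rw [sub_self, h.zero] at he2
            obtain ⟨h1, h2⟩ := ih (u'.length + v'.length) (by omega) τ σ u' v' f rfl (by omega)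
              hu' hv' he2
            subst h1
            refine ⟨rfl, Or.inr ?_⟩
            rcases h2 with rfl | h2
            · simpa [ty_zero] using hab
            · exact h2
          · exfalso
            have h3 : wrd ac τ (u' ++ [x - y]) f = wrd ac σ v' f := by
              rw [wrd_append]
              exact he2
            obtain ⟨h1, h2⟩ := ih ((u' ++ [x - y]).length + v'.length)
              (by simp only [List.length_append, List.length_singleton]; omega) τ σ
              (u' ++ [x - y]) v' f rfl
              (by simp only [List.length_append, List.length_singleton]; omega)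
              (nz_append.2 ⟨hu', nz_singleton.2 (sub_ne_zero.2 hxy)⟩) hv' h3
            rcases h2 with h2 | h2
            · simp at h2
            · subst h2
              rw [← h1, List.length_append, List.length_singleton, ty_succ] at hab
              cases hh : ty τ u'.length <;> rw [hh] at hab <;> simp at hab
        · exfalso
          have hab' : (!(ty σ (v' ++ [y]).length)) = ty τ (u' ++ [x]).length := by
            simp only [List.length_append, List.length_singleton, ty_succ, Bool.not_not]
            revert hab
            cases ty τ u'.length <;> cases ty σ v'.length <;> simp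
          have h5 := wrd_invw h σ (v' ++ [y]) f
          rw [← he, hab', ← wrd_append] at h5
          refine noClosed_all h hn hc _ τ _ f rfl ?_ (nz_append.2 ⟨hu, nz_invw hv⟩) ?_ h5
          · simp
          · simp only [List.length_append, length_invw, List.length_singleton]
            omega

theorem unique : LUnique := by
  intro G F _ ac h n hn hc τ σ u v f hu hv hl he
  exact unique_aux h hn hc _ τ σ u v f rfl hl hu hv he

end

end Pool.Agent.H97F
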